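import Pool.Agent.H22.VN.Dtr

/-!
# A subset without non-commuting sequences has finitely many orbits of tuples
-/

set_option autoImplicit false

namespace Pool.H22.VN

open Function Set Pool.H22.VC Pool.H62.VT

variable {r : ℕ} {K : Type}

/-- `N` is not wild; `F` is a finite set of parameters and `D` a set disjoint from `F` such that the
homogeneous block sequences in `D` (over finite sets containing `F`) commute. Then there are finitely
many orbits of `n`-tuples of `D` under permutations of `D` which preserve all colours of tuples of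
points of `D` and `F`. -/
theorem cel_of_perp (N : Col r K ℕ) (hfin : (range N).Finite) (hW : ¬ Wild N univ)
    (D F : Set ℕ) (hF : F.Finite) (hDF : ∀ x ∈ D, x ∉ F)
    (hP : ∀ (A : Set ℕ) (ι : Type) [Finite ι] (e : ℕ → ι → ℕ), A.Finite → F ⊆ A → A ⊆ D ∪ F →
      H17.TA.Hom N A e → (∀ i c, e i c ∈ D) → ∀ (κ κ' : Type) [Finite κ] [Finite κ']
        (τ : κ → ι) (τ' : κ' → ι), H17.TA.Perp N A e τ τ') (n : ℕ) :
    ∃ R : Set (Fin n → ℕ), R.Finite ∧ ∀ u : Fin n → ℕ, (∀ i, u i ∈ D) →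
      ∃ v ∈ R, ∃ P : Pos, (∀ q ∈ P, q.1 ∈ D ∧ q.2 ∈ D) ∧ Mt P D D ∧
        (∀ t : Fin r → ℕ × ℕ, (∀ i, t i ∈ idOn F ∪ P) →
          N (fun i => (t i).1) = N (fun i => (t i).2)) ∧
        (∀ q ∈ idOn F ∪ P, ∀ q' ∈ idOn F ∪ P, (q.1 = q'.1 ↔ q.2 = q'.2)) ∧
        ∀ i, (u i, v i) ∈ P := by
  classical
  by_cases hD : D.Finite
  · -- finite `D`
    refine ⟨{u | ∀ i, u i ∈ D}, Set.Finite.pi' (fun _ => hD), fun u hu => ⟨u, hu, idOn D,
      ?_, ?_, ?_, ?_, ?_⟩⟩
    · rintro q ⟨h1, h2⟩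
      exact ⟨h1, h2 ▸ h1⟩
    · exact ⟨fun x hx => ⟨x, hx, hx, rfl⟩, fun x hx => ⟨x, hx, hx, rfl⟩⟩
    · intro t ht
      congr 1
      funext i
      rcases ht i with h | h <;> exact h.2
    · rintro q (h | h) q' (h' | h') <;> rw [h.2, h'.2]
    · intro i
      exact ⟨hu i, rfl⟩
  · have hDi : D.Infinite := hD
    haveI : Infinite D := hDi.to_subtype
    obtain ⟨E⟩ : Nonempty (ℕ ≃ D) := by
      haveI : Denumerable D := Classical.choice (nonempty_denumerable D)
      exact ⟨(Denumerable.eqv D).symm⟩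
    let d : ℕ → ℕ := fun i => (E i : ℕ)
    have hd : Injective d := fun i j hij => E.injective (Subtype.ext hij)
    have hdD : ∀ i, d i ∈ D := fun i => (E i).2
    have hdF : ∀ i, d i ∉ F := fun i => hDF _ (hdD i)
    have hsurj : ∀ x ∈ D, ∃ i, d i = x := fun x hx => ⟨E.symm ⟨x, hx⟩, by simp [d]⟩
    have hcell : Cellular (MF N F d) := by
      refine cellular_of_perp (MF_finite hfin hF) (fun h => hW (wild_of_MF hd hF hdF h)) ?_
      intro A ι _ e hA hH κ κ' _ _ τ τ'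
      apply teq_MF
      refine hP (d '' A ∪ F) ι (fun i c => d (e i c)) ((hA.image d).union hF)
        subset_union_right ?_ (hom_of_MF hd hdF hH) (fun i c => hdD _) κ κ' τ τ'
      rintro _ (⟨y, _, rfl⟩ | h)
      · exact Or.inl (hdD y)
      · exact Or.inr h
    obtain ⟨R, hR, h⟩ := orbits_of_cellular hcell n
    refine ⟨(fun v i => d (v i)) '' R, hR.image _, fun u hu => ?_⟩
    choose u' hu' using fun i => hsurj (u i) (hu i)
    obtain ⟨v, hv, g, hg, hgv⟩ := h u'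
    refine ⟨_, ⟨v, hv, rfl⟩, {q | ∃ x, q = (d x, d (g x))}, ?_, ⟨?_, ?_⟩, ?_, ?_, ?_⟩
    · rintro _ ⟨x, rfl⟩
      exact ⟨hdD _, hdD _⟩
    · intro y hy
      obtain ⟨x, rfl⟩ := hsurj y hy
      exact ⟨_, hdD _, x, rfl⟩
    · intro y hy
      obtain ⟨x, rfl⟩ := hsurj y hy
      exact ⟨d (g.symm x), hdD _, g.symm x, by rw [Equiv.apply_symm_apply]⟩
    · intro t ht
      have h1 : ∀ i, ∃ y : ℕ, ((t i).1 ∈ F ∧ (t i).2 = (t i).1) ∨
          ((t i).1 = d y ∧ (t i).2 = d (g y)) := by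
        intro i
        rcases ht i with ⟨h1, h2⟩ | ⟨x, hx⟩
        · exact ⟨0, Or.inl ⟨h1, h2.symm⟩⟩
        · exact ⟨x, Or.inr ⟨congrArg Prod.fst hx, congrArg Prod.snd hx⟩⟩
      choose y hy using h1
      refine MF_apply y (fun i => g (y i)) (hg y).symm _ _ (fun j => ?_)
      rcases hy j with h1 | h1
      · exact Or.inl h1
      · exact Or.inr ⟨j, h1⟩
    · rintro q (⟨h1, h2⟩ | ⟨x, rfl⟩) q' (⟨h1', h2'⟩ | ⟨x', rfl⟩)
      · rw [← h2, ← h2']
      · constructor
        · intro e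
          exact absurd (e ▸ h1) (hdF _)
        · intro e
          rw [← h2] at e
          exact absurd (e ▸ h1) (hdF _)
      · constructor
        · intro e
          exact absurd (e ▸ h1') (hdF _)
        · intro e
          rw [← h2'] at e
          exact absurd (e ▸ h1') (hdF _)
      · constructor
        · intro e
          have := hd e
          rw [this]
        · intro e
          have := g.injective (hd e)
          rw [this]
    · intro i
      exact ⟨u' i, by rw [hu' i, hgv i]⟩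

/-- the coding of a structure of bounded arity as a colouring -/
def cod {a : ℕ → ℕ} (r : ℕ) (M : Pool.H62.VT.Str a) :
    Col r (∀ n, (Fin (a n) → Fin r) → Bool) ℕ :=
  fun t n v => M n (fun i => t (v i))

/-- preservation of the colours gives a partial automorphism -/
theorem PI_of_cod {a : ℕ → ℕ} {r : ℕ} (har : ∀ n, a n ≤ r) {M : Pool.H62.VT.Str a} {p : Pos}
    (h1 : ∀ t : Fin r → ℕ × ℕ, (∀ i, t i ∈ p) →
      cod r M (fun i => (t i).1) = cod r M (fun i => (t i).2))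
    (h2 : ∀ q ∈ p, ∀ q' ∈ p, (q.1 = q'.1 ↔ q.2 = q'.2)) : PI M M p := by
  classical
  refine ⟨fun n t ht => ?_, h2⟩
  rcases Nat.eq_zero_or_pos (a n) with h3 | h3
  · -- nullary symbols
    exact congrArg _ (funext fun i => (Fin.cast h3 i).elim0)
  · -- fill up the tuple
    let w : Fin r → Fin (a n) := fun j => if h : (j : ℕ) < a n then ⟨j, h⟩ else ⟨0, h3⟩
    have := congrFun (congrFun (h1 (fun j => t (w j)) (fun j => ht _)) n)
      (fun i => Fin.castLE (har n) i)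
    have e3 : ∀ i : Fin (a n), w (Fin.castLE (har n) i) = i := by
      intro i
      simp only [w, Fin.val_castLE, dif_pos i.2]
    unfold cod at this
    simp only [e3] at this
    exact this

/-- conversely -/
theorem cod_of_PI {a : ℕ → ℕ} {r : ℕ} {M M' : Pool.H62.VT.Str a} {p : Pos} (h : PI M M' p)
    (t : Fin r → ℕ × ℕ) (ht : ∀ i, t i ∈ p) :
    cod r M (fun i => (t i).1) = cod r M' (fun i => (t i).2) := by
  funext n v
  exact h.1 n (fun i => t (v i)) (fun i => ht _)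

/-- the field `cel` of the structure `FF`: see `cel_of_perp` -/
theorem cel_of_perp' {a : ℕ → ℕ} (har : ∀ n, a n ≤ r) (M : Pool.H62.VT.Str a)
    (hfin : (range (cod r M)).Finite) (hW : ¬ VC.Wild (cod r M) univ)
    (D F : Set ℕ) (hF : F.Finite) (hDF : ∀ x ∈ D, x ∉ F)
    (hP : ∀ (A : Set ℕ) (ι : Type) [Finite ι] (e : ℕ → ι → ℕ), A.Finite → F ⊆ A → A ⊆ D ∪ F →
      H17.TA.Hom (cod r M) A e → (∀ i c, e i c ∈ D) → ∀ (κ κ' : Type) [Finite κ] [Finite κ']
        (τ : κ → ι) (τ' : κ' → ι), H17.TA.Perp (cod r M) A e τ τ') (n : ℕ) :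
    ∃ R : Set (Fin n → ℕ), R.Finite ∧ ∀ u : Fin n → ℕ, (∀ i, u i ∈ D) →
      ∃ v ∈ R, ∃ P : Pos, (∀ q ∈ P, q.1 ∈ D ∧ q.2 ∈ D) ∧ Mt P D D ∧
        PI M M (idOn F ∪ P) ∧ ∀ i, (u i, v i) ∈ P := by
  obtain ⟨R, hR, h⟩ := cel_of_perp (cod r M) hfin hW D F hF hDF hP n
  refine ⟨R, hR, fun u hu => ?_⟩
  obtain ⟨v, hv, P, h1, h2, h3, h4, h5⟩ := h u hu
  exact ⟨v, hv, P, h1, h2, PI_of_cod har h3 h4, h5⟩

end Pool.H22.VN
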