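import Mathlib

/-!
# Construction of a sequence step by step
-/

set_option autoImplicit false

namespace Pool.H22.VN

theorem exists_seq_of_step {E : Type} (P : ℕ → (ℕ → E) → Prop)
    (hcongr : ∀ q e e', (∀ p < q, e p = e' p) → P q e → P q e') (e₀ : ℕ → E) (h0 : P 0 e₀)
    (hs : ∀ q e, P q e → ∃ x, P (q + 1) (Function.update e q x)) : ∃ e, ∀ q, P q e := by
  classical
  let st : (k : ℕ) → {e : ℕ → E // P k e} := fun k =>
    Nat.rec ⟨e₀, h0⟩ (fun k e => ⟨Function.update e.1 k (hs k e.1 e.2).choose,
      (hs k e.1 e.2).choose_spec⟩) k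
  have hst : ∀ k, (st (k + 1)).1 = Function.update (st k).1 k
      (hs k (st k).1 (st k).2).choose := fun k => rfl
  let e : ℕ → E := fun p => (st (p + 1)).1 p
  have he : ∀ k p, p < k → (st k).1 p = e p := by
    intro k
    induction k with
    | zero => intro p hp; exact absurd hp (Nat.not_lt_zero p)
    | succ k ih =>
      intro p hp
      by_cases hpk : p = k
      · subst hpk
        rfl
      · rw [hst k, Function.update_of_ne hpk]
        exact ih p (by omega)
  exact ⟨e, fun q => hcongr q _ e (he q) (st q).2⟩

end Pool.H22.VN
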