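import Pool.Agent.H22.VC.Defs

/-!
# Cellular structures have finitely many orbits of tuples
-/

set_option autoImplicit false

namespace Pool.H22.VN

open Function Pool.H22.VC

variable {r : ℕ} {K α : Type}

/-- a finite partial injection preserving colours extends to a permutation preserving colours -/
theorem exists_perm_ext {X C : Type} (col : X → C) (n : ℕ) (a b : Fin n → X)
    (h1 : ∀ i j, a i = a j ↔ b i = b j) (h2 : ∀ i, col (a i) = col (b i)) :
    ∃ π : Equiv.Perm X, (∀ x, col (π x) = col x) ∧ ∀ i, π (a i) = b i := by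
  classical
  induction n with
  | zero => exact ⟨Equiv.refl X, fun _ => rfl, fun i => i.elim0⟩
  | succ n ih =>
    obtain ⟨π, hπ1, hπ2⟩ := ih (fun i => a i.castSucc) (fun i => b i.castSucc)
      (fun i j => h1 _ _) (fun i => h2 _)
    by_cases h : ∃ i : Fin n, a (Fin.last n) = a i.castSucc
    · obtain ⟨i, hi⟩ := h
      refine ⟨π, hπ1, fun j => ?_⟩
      refine Fin.lastCases ?_ (fun j => hπ2 j) j
      rw [hi, hπ2 i]
      exact ((h1 _ _).1 hi).symm
    · push Not at h
      refine ⟨π.trans (Equiv.swap (π (a (Fin.last n))) (b (Fin.last n))), fun x => ?_, fun j => ?_⟩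
      · rw [Equiv.trans_apply]
        have hc : col (π (a (Fin.last n))) = col (b (Fin.last n)) := by rw [hπ1, h2]
        rw [← hπ1 x]
        by_cases e1 : π x = π (a (Fin.last n))
        · rw [e1, Equiv.swap_apply_left, hc]
        · by_cases e2 : π x = b (Fin.last n)
          · rw [e2, Equiv.swap_apply_right, hc]
          · rw [Equiv.swap_apply_of_ne_of_ne e1 e2]
      · rw [Equiv.trans_apply]
        refine Fin.lastCases ?_ (fun j => ?_) j
        · rw [Equiv.swap_apply_left]
        · have e1 : π (a j.castSucc) ≠ π (a (Fin.last n)) := fun e => h j (π.injective e).symm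
          have e2 : π (a j.castSucc) ≠ b (Fin.last n) := by
            rw [hπ2 j]
            intro e
            exact h j ((h1 _ _).2 e.symm)
          rw [Equiv.swap_apply_of_ne_of_ne e1 e2]
          exact hπ2 j

/-- cellular structures have finitely many orbits of `n`-tuples -/
theorem orbits_of_cellular {M : Col r K α} (h : Cellular M) (n : ℕ) :
    ∃ R : Set (Fin n → α), R.Finite ∧ ∀ u : Fin n → α, ∃ v ∈ R, ∃ g : Equiv.Perm α,
      (∀ t : Fin r → α, M (fun i => g (t i)) = M t) ∧ ∀ i, g (u i) = v i := by
  classical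
  obtain ⟨m, c, q, hinj, hM⟩ := h
  let Sh : ℕ → Set (Fin m) := fun k => {d | ∃ x, c x = d ∧ q x = k}
  let dat : (Fin n → α) → (Fin n → Fin m) × (Fin n → Fin n → Prop) × (Fin n → Set (Fin m)) :=
    fun u => (fun i => c (u i), fun i j => q (u i) = q (u j), fun i => Sh (q (u i)))
  have hrep : ∀ u, ∃ v, dat v = dat u := fun u => ⟨u, rfl⟩
  -- representatives depend on the data only
  let rep' : (Fin n → Fin m) × (Fin n → Fin n → Prop) × (Fin n → Set (Fin m)) →
      Set (Fin n → α) := fun D => if hD : ∃ v, dat v = D then {hD.choose} else ∅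
  refine ⟨⋃ D, rep' D, ?_, fun u => ?_⟩
  · apply Set.finite_iUnion
    intro D
    simp only [rep']
    split_ifs
    · exact Set.finite_singleton _
    · exact Set.finite_empty
  · have hD : ∃ v, dat v = dat u := hrep u
    refine ⟨hD.choose, ?_, ?_⟩
    · rw [Set.mem_iUnion]
      refine ⟨dat u, ?_⟩
      simp only [rep', dif_pos hD]
      exact Set.mem_singleton _
    · obtain ⟨v, hv⟩ : ∃ v, v = hD.choose := ⟨_, rfl⟩
      have hv' : dat v = dat u := by rw [hv]; exact hD.choose_spec
      rw [← hv]
      have d1 : ∀ i, c (v i) = c (u i) := fun i => congrFun (congrArg Prod.fst hv') i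
      have d2 : ∀ i j, (q (v i) = q (v j)) = (q (u i) = q (u j)) := fun i j =>
        congrFun (congrFun (congrArg (fun D => D.2.1) hv') i) j
      have d3 : ∀ i, Sh (q (v i)) = Sh (q (u i)) := fun i =>
        congrFun (congrArg (fun D => D.2.2) hv') i
      obtain ⟨π, hπ1, hπ2⟩ := exists_perm_ext Sh n (fun i => q (u i)) (fun i => q (v i))
        (fun i j => by rw [d2 i j]) (fun i => (d3 i).symm)
      have hex : ∀ x : α, ∃ y, c y = c x ∧ q y = π (q x) := by
        intro x
        have h1 : c x ∈ Sh (π (q x)) := by
          rw [hπ1]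
          exact ⟨x, rfl, rfl⟩
        exact h1
      choose g hg1 hg2 using hex
      have hgi : Injective g := by
        intro x y hxy
        apply hinj
        · rw [← hg1 x, ← hg1 y, hxy]
        · apply π.injective
          rw [← hg2 x, ← hg2 y, hxy]
      have hgs : Surjective g := by
        intro y
        have h1 : c y ∈ Sh (π.symm (q y)) := by
          rw [← hπ1, Equiv.apply_symm_apply]
          exact ⟨y, rfl, rfl⟩
        obtain ⟨x, hx1, hx2⟩ := h1
        refine ⟨x, hinj _ _ ?_ ?_⟩
        · rw [hg1, hx1]
        · rw [hg2, hx2, Equiv.apply_symm_apply]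
      refine ⟨Equiv.ofBijective g ⟨hgi, hgs⟩, fun t => ?_, fun i => ?_⟩
      · apply hM
        · intro i
          exact hg1 (t i)
        · intro i j
          show q (g (t i)) = q (g (t j)) ↔ _
          rw [hg2, hg2]
          exact π.injective.eq_iff
      · show g (u i) = v i
        apply hinj
        · rw [hg1, d1]
        · rw [hg2, hπ2 i]

end Pool.H22.VN
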