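import Pool.Agent.H22.VN.Perp
import Pool.Agent.H22.VN.Orb
import Pool.Agent.H62.VT.Defs

/-!
# The structure on a subset, with parameters
-/

set_option autoImplicit false

namespace Pool.H22.VN

open Function Set Pool.H22.VC

variable {r : ℕ} {K : Type}

/-- `N` on the range of `d`, with the parameters `F` -/
def MF (N : Col r K ℕ) (F : Set ℕ) (d : ℕ → ℕ) : Col r ((Fin r → F ⊕ Fin r) → K) ℕ :=
  fun y s => N (fun j => Sum.elim Subtype.val (fun i => d (y i)) (s j))

variable {N : Col r K ℕ} {F : Set ℕ} {d : ℕ → ℕ}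

theorem MF_finite (hN : (range N).Finite) (hF : F.Finite) : (range (MF N F d)).Finite := by
  haveI := hF.to_subtype
  refine (Set.Finite.pi' (fun _ : Fin r → F ⊕ Fin r => hN)).subset ?_
  rintro _ ⟨y, rfl⟩ s
  exact ⟨_, rfl⟩

/-- colours of tuples of parameters and points of the range of `d` -/
theorem MF_apply (y y' : Fin r → ℕ) (h : MF N F d y = MF N F d y') (t t' : Fin r → ℕ)
    (ht : ∀ j, (t j ∈ F ∧ t' j = t j) ∨ ∃ i, t j = d (y i) ∧ t' j = d (y' i)) : N t = N t' := by
  classical
  have h1 : ∀ j, ∃ s : F ⊕ Fin r, t j = Sum.elim Subtype.val (fun i => d (y i)) s ∧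
      t' j = Sum.elim Subtype.val (fun i => d (y' i)) s := by
    intro j
    rcases ht j with ⟨h1, h2⟩ | ⟨i, h1, h2⟩
    · exact ⟨Sum.inl ⟨t j, h1⟩, rfl, h2⟩
    · exact ⟨Sum.inr i, h1, h2⟩
  choose s hs hs' using h1
  have h2 := congrFun h s
  have e1 : t = fun j => Sum.elim Subtype.val (fun i => d (y i)) (s j) := funext hs
  have e2 : t' = fun j => Sum.elim Subtype.val (fun i => d (y' i)) (s j) := funext hs'
  rw [e1, e2]
  exact h2

theorem wild_of_MF (hd : Injective d) (hF : F.Finite) (hdF : ∀ i, d i ∉ F)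
    (h : Wild (MF N F d) univ) : Wild N univ := by
  classical
  obtain ⟨A, Ω, h1, -, h3, h4, h5⟩ := h
  refine ⟨A.image d ∪ hF.toFinset, fun s => d '' Ω s ∪ F, ?_, fun s => subset_univ _, ?_, ?_, ?_⟩
  · intro s x hx
    rcases Finset.mem_union.1 hx with hx | hx
    · obtain ⟨y, hy, rfl⟩ := Finset.mem_image.1 hx
      exact Or.inl ⟨y, h1 s y hy, rfl⟩
    · exact Or.inr (hF.mem_toFinset.1 hx)
  · intro s
    exact ((h3 s).image hd.injOn).mono subset_union_left
  · intro x
    by_cases hx : x ∈ F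
    · have : {s : ℕ → Bool | x ∈ d '' Ω s ∪ F} = univ := by
        ext s
        exact ⟨fun _ => trivial, fun _ => Or.inr hx⟩
      rw [this]
      exact isClopen_univ
    · by_cases hx' : ∃ y, d y = x
      · obtain ⟨y, rfl⟩ := hx'
        have : {s : ℕ → Bool | d y ∈ d '' Ω s ∪ F} = {s | y ∈ Ω s} := by
          ext s
          constructor
          · rintro (⟨y', hy', e⟩ | h)
            · rw [← hd e]
              exact hy'
            · exact absurd h hx
          · intro h
            exact Or.inl ⟨y, h, rfl⟩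
        rw [this]
        exact h4 y
      · have : {s : ℕ → Bool | x ∈ d '' Ω s ∪ F} = ∅ := by
          ext s
          refine ⟨?_, fun h => h.elim⟩
          rintro (⟨y', hy', e⟩ | h)
          · exact hx' ⟨y', e⟩
          · exact hx h
        rw [this]
        exact isClopen_empty
  · rintro s s' ⟨g, hg1, hg2⟩
    apply h5
    have hFB : ∀ x ∈ F, x ∈ A.image d ∪ hF.toFinset := fun x hx =>
      Finset.mem_union_right _ (hF.mem_toFinset.2 hx)
    have hgF : ∀ x (hx : x ∈ F), g ⟨x, Or.inr hx⟩ = ⟨x, Or.inr hx⟩ := fun x hx =>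
      Subtype.ext (hg1 ⟨x, Or.inr hx⟩ (hFB x hx))
    have hfwd : ∀ y : Ω s, ∃ y' : Ω s', ∀ hx : d y ∈ d '' Ω s ∪ F,
        (g ⟨d y, hx⟩ : ℕ) = d y' := by
      intro y
      have hx : d y ∈ d '' Ω s ∪ F := Or.inl ⟨y, y.2, rfl⟩
      rcases (g ⟨d y, hx⟩).2 with ⟨y', hy', e⟩ | hx'
      · exact ⟨⟨y', hy'⟩, fun _ => e.symm⟩
      · exfalso
        have e1 := hgF _ hx'
        have e2 : g ⟨(g ⟨d y, hx⟩ : ℕ), Or.inr hx'⟩ = g ⟨d y, hx⟩ := by
          rw [e1]
        have e3 := congrArg Subtype.val (g.injective e2)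
        have e4 : (g ⟨d y, hx⟩ : ℕ) = d y := e3
        rw [e4] at hx'
        exact hdF _ hx'
    have hbwd : ∀ y : Ω s', ∃ y' : Ω s, ∀ hx : d y ∈ d '' Ω s' ∪ F,
        (g.symm ⟨d y, hx⟩ : ℕ) = d y' := by
      intro y
      have hx : d y ∈ d '' Ω s' ∪ F := Or.inl ⟨y, y.2, rfl⟩
      rcases (g.symm ⟨d y, hx⟩).2 with ⟨y', hy', e⟩ | hx'
      · exact ⟨⟨y', hy'⟩, fun _ => e.symm⟩
      · exfalso
        have e1 := hgF _ hx'
        have e2 : g ⟨(g.symm ⟨d y, hx⟩ : ℕ), Or.inr hx'⟩ = ⟨d y, hx⟩ := by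
          have : (⟨(g.symm ⟨d y, hx⟩ : ℕ), Or.inr hx'⟩ : ↥(d '' Ω s ∪ F)) =
            g.symm ⟨d y, hx⟩ := Subtype.ext rfl
          rw [this, Equiv.apply_symm_apply]
        have e4 : (g.symm ⟨d y, hx⟩ : ℕ) = d y := by
          have := congrArg Subtype.val (e1.symm.trans e2)
          exact this
        rw [e4] at hx'
        exact hdF _ hx'
    choose G hG using hfwd
    choose G' hG' using hbwd
    have hm : ∀ y : Ω s, d y ∈ d '' Ω s ∪ F := fun y => Or.inl ⟨y, y.2, rfl⟩
    have hm' : ∀ y : Ω s', d y ∈ d '' Ω s' ∪ F := fun y => Or.inl ⟨y, y.2, rfl⟩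
    have hl : ∀ y, G' (G y) = y := by
      intro y
      apply Subtype.ext
      apply hd
      rw [← hG' (G y) (hm' _)]
      have : (⟨d (G y), hm' _⟩ : ↥(d '' Ω s' ∪ F)) = g ⟨d y, hm y⟩ :=
        Subtype.ext (hG y (hm y)).symm
      rw [this, Equiv.symm_apply_apply]
    have hr : ∀ y, G (G' y) = y := by
      intro y
      apply Subtype.ext
      apply hd
      rw [← hG (G' y) (hm _)]
      have : (⟨d (G' y), hm _⟩ : ↥(d '' Ω s ∪ F)) = g.symm ⟨d y, hm' y⟩ :=
        Subtype.ext (hG' y (hm' y)).symm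
      rw [this, Equiv.apply_symm_apply]
    refine ⟨⟨G, G', hl, hr⟩, fun y hy => ?_, fun t => ?_⟩
    · apply hd
      show d (G y) = d y
      rw [← hG y (hm y)]
      exact hg1 ⟨d y, hm y⟩ (Finset.mem_union_left _ (Finset.mem_image_of_mem _ hy))
    · funext u
      show N (fun j => Sum.elim Subtype.val (fun i => d (G (t i))) (u j)) =
        N (fun j => Sum.elim Subtype.val (fun i => d (t i)) (u j))
      have hin : ∀ j, Sum.elim Subtype.val (fun i => d (t i)) (u j) ∈ d '' Ω s ∪ F := by
        intro j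
        rcases u j with x | i
        · exact Or.inr x.2
        · exact hm (t i)
      have h6 := hg2 (fun j => ⟨_, hin j⟩)
      refine Eq.trans ?_ h6
      congr 1
      funext j
      have key : ∀ (w : F ⊕ Fin r) (hw : Sum.elim Subtype.val (fun i => d (t i)) w ∈
          d '' Ω s ∪ F), Sum.elim Subtype.val (fun i => d (G (t i))) w = (g ⟨_, hw⟩ : ℕ) := by
        rintro (x | i) hw
        · have := hgF x.1 x.2
          exact (congrArg Subtype.val this).symm
        · exact (hG (t i) hw).symm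
      exact key (u j) (hin j)

theorem hom_of_MF (hd : Injective d) (hdF : ∀ i, d i ∉ F) {A : Set ℕ} {ι : Type}
    {e : ℕ → ι → ℕ} (h : H17.TA.Hom (MF N F d) A e) :
    H17.TA.Hom N (d '' A ∪ F) (fun i c => d (e i c)) := by
  classical
  refine ⟨fun i j c c' hij => h.inj _ _ _ _ (hd hij), ?_, ?_⟩
  · rintro i c (⟨y, hy, e1⟩ | h1)
    · exact h.notA i c (by rw [← hd e1]; exact hy)
    · exact hdF _ h1
  · intro φ hφ t ht
    -- an entry outside `F`
    by_cases hex : ∃ j₀ : Fin r, ∀ a, t j₀ = Sum.inl a → a ∉ F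
    · obtain ⟨j₀, hj₀⟩ := hex
      -- the tuple of the new structure
      have hT : ∀ j, ∃ u : ℕ ⊕ (ℕ × ι), (∀ a, u = Sum.inl a → a ∈ A) ∧
          ((∃ a, t j = Sum.inl a ∧ a ∈ F) ∨
            t j = Sum.map d id u) := by
        intro j
        rcases htj : t j with a | p
        · rcases ht j a htj with ⟨y, hy, e1⟩ | h1
          · exact ⟨Sum.inl y, fun a ha => by rw [← Sum.inl.inj ha]; exact hy,
              Or.inr (by simp [e1])⟩
          · -- use the entry `j₀`
            rcases htj₀ : t j₀ with a' | p'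
            · rcases ht j₀ a' htj₀ with ⟨y, hy, e1⟩ | h1'
              · exact ⟨Sum.inl y, fun a ha => by rw [← Sum.inl.inj ha]; exact hy,
                  Or.inl ⟨a, rfl, h1⟩⟩
              · exact absurd h1' (hj₀ a' htj₀)
            · exact ⟨Sum.inr p', fun a ha => by simp at ha, Or.inl ⟨a, rfl, h1⟩⟩
        · exact ⟨Sum.inr p, fun a ha => by simp at ha, Or.inr rfl⟩
      choose u hu1 hu2 using hT
      have h1 := h.hom φ hφ u (fun j a hj => hu1 j a hj)
      refine MF_apply _ _ h1 _ _ (fun j => ?_)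
      rcases hu2 j with ⟨a, ha, haF⟩ | hj
      · left
        rw [ha]
        exact ⟨haF, rfl⟩
      · right
        refine ⟨j, ?_, ?_⟩
        · rw [hj]
          rcases u j with a | p <;> rfl
        · rw [hj]
          rcases u j with a | p <;> rfl
    · push Not at hex
      congr 1
      funext j
      obtain ⟨a, ha, -⟩ := hex j
      rw [ha]
      rfl

theorem teq_MF {A : Set ℕ} {ι κ : Type} {e : ℕ → ι → ℕ} {z z' : κ → ℕ × ι}
    (h : H17.TA.Teq N (d '' A ∪ F) (fun i c => d (e i c)) z z') :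
    H17.TA.Teq (MF N F d) A e z z' := by
  intro f b b' h1 h2 h3 h4 t ht
  funext s
  show N (fun j => Sum.elim Subtype.val (fun i => d (H17.TA.pl e f b z (t i))) (s j)) =
    N (fun j => Sum.elim Subtype.val (fun i => d (H17.TA.pl e f b' z' (t i))) (s j))
  have h5 := h f b b' h1 h2 h3 h4
    (fun j => Sum.elim (fun x : F => Sum.inl x.1) (fun i => Sum.map d id (t i)) (s j)) ?_
  · refine Eq.trans ?_ (h5.trans ?_)
    · congr 1
      funext j
      rcases s j with x | i
      · rfl
      · simp only [Sum.elim_inr]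
        rcases t i with a | p | k | p <;> rfl
    · congr 1
      funext j
      rcases s j with x | i
      · rfl
      · simp only [Sum.elim_inr]
        rcases t i with a | p | k | p <;> rfl
  · constructor
    · intro j a hj
      beta_reduce at hj
      rcases hsj : s j with x | i
      · rw [hsj] at hj
        rw [← Sum.inl.inj hj]
        exact Or.inr x.2
      · rw [hsj] at hj
        rcases hti : t i with a' | p
        · simp only [Sum.elim_inr, hti, Sum.map_inl, Sum.inl.injEq] at hj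
          rw [← hj]
          exact Or.inl ⟨a', ht.1 i a' hti, rfl⟩
        · simp [hti] at hj
    · intro j p hj
      beta_reduce at hj
      rcases hsj : s j with x | i
      · rw [hsj] at hj
        simp at hj
      · rw [hsj] at hj
        rcases hti : t i with a' | q
        · simp [hti] at hj
        · simp only [Sum.elim_inr, hti, Sum.map_inr, id, Sum.inr.injEq] at hj
          exact ht.2 i p (by rw [hti, hj])

end Pool.H22.VN
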