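import Pool.Agent.H22.VN.Cel

/-!
# A subset without non-commuting sequences: permutations which preserve codes and cells
-/

set_option autoImplicit false

namespace Pool.H22.VN

open Function Set Pool.H22.VC Pool.H62.VT

variable {r : ℕ}

/-- the field `cel` of the structure `FF` with independent cells: all permutations of `D` which
preserve the codes `c` and the cells (the sets of points of `D` with the same number `q`) give
automorphisms -/
theorem hcl_of_perp {a : ℕ → ℕ} (har : ∀ n, a n ≤ r) (M : Pool.H62.VT.Str a)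
    (hfin : (range (cod r M)).Finite) (hW : ¬ VC.Wild (cod r M) univ)
    (D F : Set ℕ) (hF : F.Finite) (hDF : ∀ x ∈ D, x ∉ F)
    (hP : ∀ (A : Set ℕ) (ι : Type) [Finite ι] (e : ℕ → ι → ℕ), A.Finite → F ⊆ A → A ⊆ D ∪ F →
      H17.TA.Hom (cod r M) A e → (∀ i c, e i c ∈ D) → ∀ (κ κ' : Type) [Finite κ] [Finite κ']
        (τ : κ → ι) (τ' : κ' → ι), H17.TA.Perp (cod r M) A e τ τ') :
    ∃ (m : ℕ) (c q : ℕ → ℕ), (∀ y ∈ D, c y < m) ∧
      (∀ y ∈ D, ∀ y' ∈ D, c y = c y' → q y = q y' → y = y') ∧
      ∀ g : Equiv.Perm ℕ, (∀ y, y ∉ D → g y = y) → (∀ y ∈ D, c (g y) = c y) →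
        (∀ y ∈ D, ∀ y' ∈ D, (q y = q y' ↔ q (g y) = q (g y'))) →
        PI M M (idOn F ∪ {p | p.1 ∈ D ∧ p.2 = g p.1}) := by
  classical
  by_cases hD : D.Finite
  · -- finite `D`
    obtain ⟨m, hm⟩ := hD.bddAbove
    refine ⟨m + 1, fun y => y, fun _ => 0, fun y hy => Nat.lt_succ_of_le (hm hy),
      fun y _ y' _ h _ => h, fun g _ h2 _ => ?_⟩
    have h3 : ∀ p ∈ idOn F ∪ {p : ℕ × ℕ | p.1 ∈ D ∧ p.2 = g p.1}, p.1 = p.2 := by
      rintro p (h | h)
      · exact h.2
      · rw [h.2]
        exact (h2 _ h.1).symm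
    apply PI_of_cod har
    · intro t ht
      congr 1
      funext i
      exact h3 _ (ht i)
    · intro p hp p' hp'
      rw [h3 p hp, h3 p' hp']
  · have hDi : D.Infinite := hD
    haveI : Infinite D := hDi.to_subtype
    obtain ⟨E⟩ : Nonempty (ℕ ≃ D) := by
      haveI : Denumerable D := Classical.choice (nonempty_denumerable D)
      exact ⟨(Denumerable.eqv D).symm⟩
    let d : ℕ → ℕ := fun i => (E i : ℕ)
    have hd : Injective d := fun i j hij => E.injective (Subtype.ext hij)
    have hdD : ∀ i, d i ∈ D := fun i => (E i).2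
    have hdF : ∀ i, d i ∉ F := fun i => hDF _ (hdD i)
    have hsurj : ∀ x ∈ D, ∃ i, d i = x := fun x hx => ⟨E.symm ⟨x, hx⟩, by simp [d]⟩
    have hcell : Cellular (MF (cod r M) F d) := by
      refine cellular_of_perp (MF_finite hfin hF) (fun h => hW (wild_of_MF hd hF hdF h)) ?_
      intro A ι _ e hA hH κ κ' _ _ τ τ'
      apply teq_MF
      refine hP (d '' A ∪ F) ι (fun i c => d (e i c)) ((hA.image d).union hF)
        subset_union_right ?_ (hom_of_MF hd hdF hH) (fun i c => hdD _) κ κ' τ τ'
      rintro _ (⟨y, _, rfl⟩ | h)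
      · exact Or.inl (hdD y)
      · exact Or.inr h
    obtain ⟨m, c, q, hinj, hM⟩ := hcell
    -- the index of a point of `D`
    let e : ℕ → ℕ := fun x => if h : x ∈ D then E.symm ⟨x, h⟩ else 0
    have hed : ∀ i, e (d i) = i := by
      intro i
      show (if h : d i ∈ D then E.symm ⟨d i, h⟩ else 0) = i
      rw [dif_pos (hdD i)]
      exact E.symm_apply_apply i
    have hde : ∀ x ∈ D, d (e x) = x := by
      intro x hx
      obtain ⟨i, rfl⟩ := hsurj x hx
      rw [hed]
    refine ⟨m, fun y => (c (e y) : ℕ), fun y => q (e y), fun y _ => (c (e y)).2,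
      fun y hy y' hy' h1 h2 => ?_, fun g h1 h2 h3 => ?_⟩
    · have := hinj _ _ (Fin.ext h1) h2
      rw [← hde y hy, ← hde y' hy', this]
    · have hg : ∀ x ∈ D, g x ∈ D := by
        intro x hx
        by_contra hn
        have := g.injective (h1 _ hn)
        exact hn (this.symm ▸ hx)
      apply PI_of_cod har
      · intro t ht
        have h4 : ∀ i, ∃ y : ℕ, ((t i).1 ∈ F ∧ (t i).2 = (t i).1) ∨
            ((t i).1 = d y ∧ (t i).2 = d (e (g (d y)))) := by
          intro i
          rcases ht i with ⟨h5, h6⟩ | ⟨h5, h6⟩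
          · exact ⟨0, Or.inl ⟨h5, h6.symm⟩⟩
          · obtain ⟨y, hy⟩ := hsurj _ h5
            refine ⟨y, Or.inr ⟨hy.symm, ?_⟩⟩
            rw [hde _ (hg _ (hdD y)), hy, h6]
        choose y hy using h4
        refine MF_apply y (fun i => e (g (d (y i)))) (hM _ _ (fun i => ?_) (fun i j => ?_)) _ _
          (fun j => ?_)
        · have := h2 (d (y i)) (hdD _)
          simp only [hed] at this
          exact (Fin.ext this).symm
        · have := h3 (d (y i)) (hdD _) (d (y j)) (hdD _)
          simp only [hed] at this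
          exact this
        · rcases hy j with h5 | h5
          · exact Or.inl h5
          · exact Or.inr ⟨j, h5⟩
      · rintro p (⟨h4, h5⟩ | ⟨h4, h5⟩) p' (⟨h4', h5'⟩ | ⟨h4', h5'⟩)
        · rw [← h5, ← h5']
        · constructor
          · intro e1
            exact absurd (e1 ▸ h4) (hDF _ h4')
          · intro e1
            rw [← h5, h5'] at e1
            exact absurd (e1 ▸ h4) (hDF _ (hg _ h4'))
        · constructor
          · intro e1
            exact absurd (e1 ▸ h4') (hDF _ h4)
          · intro e1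
            rw [← h5', h5] at e1
            exact absurd (e1 ▸ h4') (hDF _ (hg _ h4))
        · rw [h5, h5']
          exact g.injective.eq_iff.symm

end Pool.H22.VN
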