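import Pool.Agent.H22.VN.Sys
import Pool.Agent.H22.VC.StepC

/-!
# The finiteness condition over a separating set, and unbounded indecomposable types
-/

set_option autoImplicit false

namespace Pool.H22.VN

open Filter Function Pool.H22.VC

variable {r : ℕ} {K α ι : Type}

theorem finite_of_key {X Y Z : Type} [Finite Y] (S : Set X) (key : X → Y) (g : X → Z)
    (h : ∀ x ∈ S, ∀ x' ∈ S, key x = key x' → g x = g x') : (g '' S).Finite := by
  have h1 : g '' S ⊆ ⋃ y : Y, {z | ∃ x ∈ S, key x = y ∧ g x = z} := by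
    rintro z ⟨x, hx, rfl⟩
    exact Set.mem_iUnion.2 ⟨key x, x, hx, rfl, rfl⟩
  refine (Set.finite_iUnion (fun y => ?_)).subset h1
  refine Set.Subsingleton.finite ?_
  rintro z ⟨x, hx, hxy, rfl⟩ z' ⟨x', hx', hxy', rfl⟩
  exact h x hx x' hx' (hxy.trans hxy'.symm)

/-- joint law of finitely many entries -/
theorem gen_jointS {L : Type} [LinearOrder L] {M : Col r K α} (hfin : (Set.range M).Finite)
    (W : L → Ultrafilter (ι → α)) (I : L → Set ι) (hg : ∀ p, GoodOn (W p) (I p))
    {J : Type} [Fintype J] (z : J → L × ι) (S : Set J) (hz : Set.InjOn z S)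
    (hzI : ∀ j ∈ S, (z j).2 ∈ I (z j).1) :
    ∃ Z : Ultrafilter (J → α), GoodOn Z S ∧
      ∀ t : Fin r → α ⊕ J, Gen M W (Sum.map id z ∘ t) = LT M Z t := by
  classical
  let P : Finset L := Finset.univ.image (fun j => (z j).1)
  have hP : ∀ j, (z j).1 ∈ P.sort (· ≤ ·) := by
    intro j
    rw [Finset.mem_sort]
    exact Finset.mem_image_of_mem _ (Finset.mem_univ j)
  have hl : (P.sort (· ≤ ·)).Pairwise (· < ·) := P.sortedLT_sort.pairwise
  let e₀ : L → ι → α := fun p => upt (W p)
  have H : ∀ j ∈ S, (Sum.inr (z j) : α ⊕ (L × ι)) ∈ Dom I := by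
    intro j hj p c h
    have := Sum.inr.inj h
    have h1 := hzI j hj
    rw [this] at h1
    exact h1
  have H' : ∀ j, ∀ p c, (Sum.inr (z j) : α ⊕ (L × ι)) = Sum.inr (p, c) →
      p ∈ P.sort (· ≤ ·) := by
    intro j p c h
    have := Sum.inr.inj h
    have h1 := hP j
    rw [this] at h1
    exact h1
  refine ⟨(samp W (P.sort (· ≤ ·)) e₀).map (fun e j => e (z j).1 (z j).2), ⟨?_, ?_⟩, ?_⟩
  · intro j hj a
    rw [Ultrafilter.coe_map, Filter.eventually_map, ← evl_iff_samp]
    exact evl_ne hg _ hl (Sum.inr (z j)) (Sum.inl a) (H j hj)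
      (by
        intro p c h
        exact absurd h (by simp))
      (H' j)
      (by
        intro p c h
        exact absurd h (by simp)) (by simp) e₀
  · intro j hj j' hj' hjj
    rw [Ultrafilter.coe_map, Filter.eventually_map, ← evl_iff_samp]
    exact evl_ne hg _ hl (Sum.inr (z j)) (Sum.inr (z j')) (H j hj) (H j' hj') (H' j) (H' j')
      (fun h => hjj (hz hj hj' (Sum.inr.inj h))) e₀
  · intro t
    rw [gen_eq_itl M W _ (P.sort (· ≤ ·)) hl (by
      intro p hp
      obtain ⟨i, c, h⟩ := (mem_posT _ p).1 hp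
      simp only [Function.comp] at h
      rcases hi : t i with a | j
      · rw [hi] at h
        simp at h
      · rw [hi] at h
        simp only [Sum.map_inr] at h
        exact H' j p c h) e₀]
    rw [itl_eq_samp W hfin _ _ (fun e => ⟨_, rfl⟩)]
    unfold VC.LT
    rw [ulim_map hfin (fun x => ⟨_, rfl⟩)]
    congr 1
    funext e
    congr 1
    funext i
    simp only [Function.comp]
    rcases t i with a | j
    · rfl
    · rfl

open Classical in
/-- first index with the same value -/
noncomputable def fstI {X : Type} (t : Fin r → X) (i : Fin r) : Fin r :=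
  (Finset.univ.filter (fun j => t j = t i)).min' ⟨i, by simp⟩

theorem fstI_spec {X : Type} (t : Fin r → X) (i : Fin r) : t (fstI t i) = t i := by
  classical
  have := Finset.min'_mem (Finset.univ.filter (fun j => t j = t i)) ⟨i, by simp⟩
  rw [Finset.mem_filter] at this
  exact this.2

theorem fstI_congr {X : Type} (t : Fin r → X) {i j : Fin r} (h : t i = t j) :
    fstI t i = fstI t j := by
  classical
  unfold fstI
  congr 1
  rw [h]

/-- pattern of a template -/
noncomputable def patT {X : Type} (t : Fin r → Option X) (i : Fin r) : Option (Fin r) :=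
  (t i).map (fun _ => fstI t i)

/-- tuple given by a pattern and parameters -/
def patF (π : Fin r → Option (Fin r)) (a : Fin r → α) : Fin r → α ⊕ Fin r :=
  fun i => match π i with
    | some j => Sum.inr j
    | none => Sum.inl (a i)

/-- the finiteness condition holds if a finite set separates the limit types -/
theorem famT_finite_of_sepBy {L : Type} [LinearOrder L] {M : Col r K α}
    (hfin : (Set.range M).Finite) (A₀ : Finset α) (hS : SepBy M (A₀ : Set α))
    (W : L → Ultrafilter (ι → α)) (I : L → Set ι) (hg : ∀ p, GoodOn (W p) (I p))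
    [Nonempty (L × ι)] : (FamT M W I).Finite := by
  classical
  obtain ⟨d⟩ := ‹Nonempty (L × ι)›
  let X : Type := {t : Fin r → Option (L × ι) // ∀ i p c, t i = some (p, c) → c ∈ I p}
  let z : (Fin r → Option (L × ι)) → Fin r → L × ι := fun t j => (t j).getD d
  let S : (Fin r → Option (L × ι)) → Set (Fin r) := fun t => {j | patT t j = some j}
  have hSsome : ∀ (t : Fin r → Option (L × ι)) (j : Fin r), j ∈ S t →
      ∃ pc, t j = some pc ∧ fstI t j = j := by
    intro t j hj
    change patT t j = some j at hj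
    unfold patT at hj
    rcases h : t j with _ | pc
    · rw [h] at hj
      simp at hj
    · rw [h] at hj
      exact ⟨pc, rfl, Option.some.inj hj⟩
  have hzinj : ∀ t : Fin r → Option (L × ι), Set.InjOn (z t) (S t) := by
    intro t j hj j' hj' h
    obtain ⟨pc, h1, h2⟩ := hSsome t j hj
    obtain ⟨pc', h1', h2'⟩ := hSsome t j' hj'
    simp only [z, h1, h1', Option.getD_some] at h
    rw [← h2, ← h2']
    exact fstI_congr t (by rw [h1, h1', h])
  have hzI : ∀ t : X, ∀ j ∈ S t.1, (z t.1 j).2 ∈ I (z t.1 j).1 := by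
    intro t j hj
    obtain ⟨⟨p, c⟩, h1, h2⟩ := hSsome t.1 j hj
    simp only [z, h1, Option.getD_some]
    exact t.2 j p c h1
  choose Z hZg hZ using fun t : X => gen_jointS hfin W I hg (z t.1) (S t.1) (hzinj t.1) (hzI t)
  have hfil : ∀ (t : Fin r → Option (L × ι)) (a : Fin r → α),
      fil t a = Sum.map id (z t) ∘ patF (patT t) a := by
    intro t a
    funext i
    rcases h : t i with _ | pc
    · have h1 : patT t i = none := by simp [patT, h]
      simp [fil, patF, h, h1]
    · have h1 : patT t i = some (fstI t i) := by simp [patT, h]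
      simp [fil, patF, h, h1, z, fstI_spec]
  have hpatS : ∀ (t : Fin r → Option (L × ι)) (a : Fin r → α) (i j : Fin r),
      patF (patT t) a i = Sum.inr j → j ∈ S t := by
    intro t a i j hij
    rcases h : t i with _ | pc
    · have h1 : patT t i = none := by simp [patT, h]
      simp [patF, h1] at hij
    · have h1 : patT t i = some (fstI t i) := by simp [patT, h]
      simp only [patF, h1] at hij
      have h2 : fstI t i = j := Sum.inr.inj hij
      show patT t j = some j
      unfold patT
      rw [← h2, fstI_spec t i, h, fstI_congr t (fstI_spec t i)]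
      rfl
  have hfinR : Finite (Set.range M) := hfin.to_subtype
  let key : X → (Fin r → Option (Fin r)) × ((Fin r → A₀ ⊕ Fin r) → Set.range M) := fun t =>
    (patT t.1, fun s => ⟨LT M (Z t) (fun i => Sum.map Subtype.val id (s i)),
      ulim_mem hfin (fun _ => ⟨_, rfl⟩)⟩)
  have hkey := finite_of_key (Set.univ : Set X) key (fun t => fun a => Gen M W (fil t.1 a)) (by
    intro t _ t' _ htt
    have h1 : patT t.1 = patT t'.1 := (Prod.mk.inj htt).1
    have h2 := (Prod.mk.inj htt).2
    have hSS : S t.1 = S t'.1 := by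
      simp only [S, h1]
    have hsame : ∀ s : Fin r → α ⊕ Fin r, (∀ i c, s i = Sum.inr c → c ∈ S t.1) →
        LT M (Z t) s = LT M (Z t') s := by
      intro s hs
      have hg1 : GoodOn (Z t) ((S t.1).toFinset : Set (Fin r)) := by
        rw [Set.coe_toFinset]
        exact hZg t
      have hg2 : GoodOn (Z t') ((S t.1).toFinset : Set (Fin r)) := by
        rw [Set.coe_toFinset, hSS]
        exact hZg t'
      refine hS (Fin r) (Z t) (Z t') (S t.1).toFinset hg1 hg2 ?_ s
        (fun i c hc => Set.mem_toFinset.2 (hs i c hc))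
      intro s' hs'A _
      have hex : ∀ i, ∃ u : A₀ ⊕ Fin r, s' i = Sum.map Subtype.val id u := by
        intro i
        rcases hi : s' i with a | j
        · exact ⟨Sum.inl ⟨a, hs'A i a hi⟩, rfl⟩
        · exact ⟨Sum.inr j, rfl⟩
      choose u hu using hex
      have h3 := congrArg Subtype.val (congrFun h2 u)
      simp only at h3
      have h4 : s' = fun i => Sum.map Subtype.val id (u i) := funext hu
      rw [h4]
      exact h3
    funext a
    show Gen M W (fil t.1 a) = Gen M W (fil t'.1 a)
    rw [hfil, hfil, hZ, hZ, hsame _ (hpatS t.1 a), h1])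
  refine hkey.subset ?_
  rintro g ⟨t, ht, rfl⟩
  exact ⟨⟨t, ht⟩, Set.mem_univ _, rfl⟩

/-- connectivity of indecomposable types -/
theorem conn_of_indec {M : Col r K α} (hN : Nice M) {V : Ultrafilter (ι → α)} {I : Finset ι}
    (hg : GoodOn V I) (hi : Indec M V I) : ∀ x ∈ I, ∀ y ∈ I,
    Relation.ReflTransGen (fun x y => ∃ S : Finset ι,
      S ⊆ I ∧ S.card ≤ r ∧ x ∈ S ∧ y ∈ S ∧ Indec M V S) x y := by
  classical
  intro x hx y hy
  by_contra hxy
  set P : Set ι := {z | Relation.ReflTransGen (fun x y => ∃ S : Finset ι,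
      S ⊆ I ∧ S.card ≤ r ∧ x ∈ S ∧ y ∈ S ∧ Indec M V S) x z} with hPdef
  have hns := hi P ⟨x, hx, Relation.ReflTransGen.refl⟩ ⟨y, hy, hxy⟩
  obtain ⟨S, hSI, hSr, hSi, ⟨c, hcS, hcP⟩, ⟨c', hcS', hcP'⟩⟩ := mcu hN hg P hns
  exact hcP' (Relation.ReflTransGen.tail hcP ⟨S, hSI, hSr, hcS, hcS', hSi⟩)

/-- Step C: unbounded indecomposable types over a separating finite set -/
theorem stepC' [Countable α] (M : Col r K α) (hN : Nice M) (A₀ : Finset α)
    (hS : SepBy M (A₀ : Set α))
    (hunb : ∀ B : ℕ, ∃ (ι : Type) (V : Ultrafilter (ι → α)) (I : Finset ι),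
      GoodOn V I ∧ Indec M V I ∧ B ≤ I.card) : Wild M Set.univ := by
  classical
  have hα : Nonempty α := by
    obtain ⟨ι, V, I, hg, hi, hB⟩ := hunb 1
    obtain ⟨c, hc⟩ := Finset.card_pos.mp (show 0 < I.card by omega)
    exact ⟨upt V c⟩
  -- the sequence of limit types
  have hfreq : ∃ᶠ n in atTop, 1 ≤ n ∧ ∃ V : Ultrafilter (ℕ → α),
      GoodOn V (Finset.range n : Set ℕ) ∧ Indec M V (Finset.range n) := by
    rw [Filter.frequently_atTop]
    intro B
    obtain ⟨ι, V, I, hg, hi, hB⟩ := hunb (B + 1)
    obtain ⟨V', h1, h2⟩ := sc_renumber hN hg hi (Finset.card_pos.mp (by omega))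
    exact ⟨I.card, by omega, by omega, V', h1, h2⟩
  obtain ⟨n, hn, hP⟩ := Filter.extraction_of_frequently_atTop hfreq
  have hn1 : ∀ q, 1 ≤ n q := fun q => (hP q).1
  choose V hg hind using fun q => (hP q).2
  refine wildSys hN V (fun q => Finset.range (n q)) hg ?_ ?_ ?_ ?_
  · exact famT_finite_of_sepBy hN.1 A₀ hS _ _ (fun p => hg _)
  · intro q
    exact ⟨0, Finset.mem_range.mpr (hn1 q)⟩
  · intro q q' hqq
    simp only [Finset.card_range]
    exact hn hqq
  · intro q x hx y hy
    exact conn_of_indec hN (hg q) (hind q) x hx y hy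

end Pool.H22.VN
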