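import Pool.Agent.H22.VN.StarWild
import Pool.Agent.H22.VN.FinSep
import Pool.Agent.H22.VC.StepD1
import Pool.Agent.H22.VC.StepD2

/-!
# Structure theorem for one structure with commuting limits
-/

set_option autoImplicit false

namespace Pool.H22.VN

open Filter Function Pool.H22.VC

variable {r : ℕ} {K α : Type}

/-- A colouring with finite range and commuting limits on a countable set which has no Cantor
family of infinite substructures, pairwise non-isomorphic over a finite set, is cellular. -/
theorem cellular_of_nice [Countable α] (M : Col r K α) (hN : Nice M)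
    (hw : ¬ Wild M Set.univ) : Cellular M := by
  have hsep : ∃ A₀ : Finset α, SepBy M (A₀ : Set α) := by
    by_contra hcon
    push Not at hcon
    exact hw (stepB' M hN hcon)
  obtain ⟨A₀, hS⟩ := hsep
  have hbd : ∃ b : ℕ, ∀ (ι : Type) (V : Ultrafilter (ι → α)) (I : Finset ι), GoodOn V I →
      Indec M V I → I.card ≤ b := by
    by_contra hcon
    push Not at hcon
    apply hw
    apply stepC' M hN A₀ hS
    intro B
    obtain ⟨ι, V, I, h1, h2, h3⟩ := hcon B
    exact ⟨ι, V, I, h1, h2, h3.le⟩
  obtain ⟨b, hb⟩ := hbd
  obtain ⟨A, hA, hfree⟩ := stepD1 M hN A₀ hS b hb (b + r)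
  exact stepD2 M hN A₀ hS b hb A hA hfree

end Pool.H22.VN
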