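import Pool.Agent.H22.VN.Main
import Pool.Agent.H22.VN.Seq
import Pool.Agent.H22.VC.CommGen
import Pool.Agent.H17.TA.Norm

/-!
# Commutation in all homogeneous block sequences gives commutation of all limits
-/

set_option autoImplicit false

namespace Pool.H22.VN

open Filter Function Pool.H22.VC

variable {r : ℕ} {K α : Type}

section

variable {m n k : ℕ}

/-- value at a tuple with the three blocks `x`, `y`, `z` -/
def v3 (M : Col r K α) (t : Fin r → α ⊕ (Fin m ⊕ (Fin n ⊕ Fin k))) (x : Fin m → α)
    (y : Fin n → α) (z : Fin k → α) : K :=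
  M (Sum.elim id (Sum.elim x (Sum.elim y z)) ∘ t)

/-- the three parts of a block -/
def bx (e : Fin m ⊕ (Fin n ⊕ Fin k) → α) : Fin m → α := fun c => e (Sum.inl c)
def by' (e : Fin m ⊕ (Fin n ⊕ Fin k) → α) : Fin n → α := fun c => e (Sum.inr (Sum.inl c))
def bz (e : Fin m ⊕ (Fin n ⊕ Fin k) → α) : Fin k → α := fun c => e (Sum.inr (Sum.inr c))

/-- invariant of the construction -/
structure NcInv (M : Col r K α) (U : Ultrafilter (Fin m → α)) (V : Ultrafilter (Fin n → α))
    (Z : Ultrafilter (Fin k → α)) (t : Fin r → α ⊕ (Fin m ⊕ (Fin n ⊕ Fin k))) (ε ε' : K)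
    (A : Set α) (q : ℕ) (e : ℕ → Fin m ⊕ (Fin n ⊕ Fin k) → α) : Prop where
  xyz : ∀ i j l, i < j → j < l → l < q → v3 M t (bx (e i)) (by' (e j)) (bz (e l)) = ε
  yxz : ∀ i j l, j < i → i < l → l < q → v3 M t (bx (e i)) (by' (e j)) (bz (e l)) = ε'
  xy : ∀ i j, i < j → j < q → ulim Z (fun z => v3 M t (bx (e i)) (by' (e j)) z) = ε
  yx : ∀ i j, j < i → i < q → ulim Z (fun z => v3 M t (bx (e i)) (by' (e j)) z) = ε'
  x : ∀ i, i < q → ulim V (fun y => ulim Z (fun z => v3 M t (bx (e i)) y z)) = ε
  y : ∀ j, j < q → ulim U (fun x => ulim Z (fun z => v3 M t x (by' (e j)) z)) = ε'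
  inj : ∀ i j c d, i < q → j < q → e i c = e j d → i = j ∧ c = d
  notA : ∀ i c, i < q → e i c ∉ A

theorem ncInv_step {M : Col r K α} (hfin : (Set.range M).Finite) (U : Ultrafilter (Fin m → α))
    (V : Ultrafilter (Fin n → α)) (Z : Ultrafilter (Fin k → α)) (hU : GoodOn U Set.univ)
    (hV : GoodOn V Set.univ) (hZ : GoodOn Z Set.univ)
    (t : Fin r → α ⊕ (Fin m ⊕ (Fin n ⊕ Fin k))) (ε ε' : K)
    (hε : ulim U (fun x => ulim V (fun y => ulim Z (fun z => v3 M t x y z))) = ε)
    (hε' : ulim V (fun y => ulim U (fun x => ulim Z (fun z => v3 M t x y z))) = ε')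
    (A : Set α) (hA : A.Finite) (q : ℕ) (e : ℕ → Fin m ⊕ (Fin n ⊕ Fin k) → α)
    (h : NcInv M U V Z t ε ε' A q e) :
    ∃ w, NcInv M U V Z t ε ε' A (q + 1) (Function.update e q w) := by
  classical
  have hr : ∀ x y z, v3 M t x y z ∈ Set.range M := fun x y z => ⟨_, rfl⟩
  have hr1 : ∀ x y, ulim Z (fun z => v3 M t x y z) ∈ Set.range M :=
    fun x y => ulim_mem hfin (fun z => hr x y z)
  have hr2 : ∀ x, ulim V (fun y => ulim Z (fun z => v3 M t x y z)) ∈ Set.range M :=
    fun x => ulim_mem hfin (fun y => hr1 x y)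
  have hr2' : ∀ y, ulim U (fun x => ulim Z (fun z => v3 M t x y z)) ∈ Set.range M :=
    fun y => ulim_mem hfin (fun x => hr1 x y)
  let P : Set α := A ∪ ⋃ p ∈ Set.Iio q, Set.range (e p)
  have hP : P.Finite :=
    hA.union ((Set.finite_Iio q).biUnion (fun p _ => Set.finite_range _))
  have hPe : ∀ p < q, ∀ c, e p c ∈ P := fun p hp c =>
    Or.inr (Set.mem_biUnion (show p ∈ Set.Iio q from hp) ⟨c, rfl⟩)
  have fresh : ∀ {a : ℕ} (T : Ultrafilter (Fin a → α)), GoodOn T Set.univ → ∀ Q : Set α,
      Q.Finite → ∀ᶠ x in (T : Filter (Fin a → α)), (∀ c, x c ∉ Q) ∧ Injective x := by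
    intro a T hT Q hQ
    have h1 : ∀ᶠ x in (T : Filter (Fin a → α)), ∀ c, ∀ b ∈ Q, x c ≠ b := by
      rw [Filter.eventually_all]
      intro c
      rw [Filter.eventually_all_finite hQ]
      intro b _
      exact hT.1 c (Set.mem_univ c) b
    have h2 : ∀ᶠ x in (T : Filter (Fin a → α)), ∀ c c' : Fin a, c ≠ c' → x c ≠ x c' := by
      rw [Filter.eventually_all]
      intro c
      rw [Filter.eventually_all]
      intro c'
      by_cases hcc : c = c'
      · exact Eventually.of_forall (fun x h => absurd hcc h)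
      · exact (hT.2 c (Set.mem_univ c) c' (Set.mem_univ c') hcc).mono (fun x hx _ => hx)
    refine (h1.and h2).mono (fun x hx => ⟨fun c hc => hx.1 c _ hc rfl, ?_⟩)
    intro c c' hcc
    by_contra hne
    exact hx.2 c c' hne hcc
  -- choice of `x`
  have hx1 : ∀ᶠ x in (U : Filter (Fin m → α)),
      ulim V (fun y => ulim Z (fun z => v3 M t x y z)) = ε := by
    have := ulim_spec (U := U) hfin hr2
    rw [hε] at this
    exact this
  have hx2 : ∀ᶠ x in (U : Filter (Fin m → α)), ∀ j ∈ Set.Iio q,
      ulim Z (fun z => v3 M t x (by' (e j)) z) = ε' := by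
    rw [Filter.eventually_all_finite (Set.finite_Iio q)]
    intro j hj
    have := ulim_spec (U := U) hfin (fun x => hr1 x (by' (e j)))
    rw [h.y j hj] at this
    exact this
  obtain ⟨x, hx1, hx2, hx3, hx4⟩ := (hx1.and (hx2.and (fresh U hU P hP))).exists
  -- choice of `y`
  have hy1 : ∀ᶠ y in (V : Filter (Fin n → α)),
      ulim U (fun x => ulim Z (fun z => v3 M t x y z)) = ε' := by
    have := ulim_spec (U := V) hfin hr2'
    rw [hε'] at this
    exact this
  have hy2 : ∀ᶠ y in (V : Filter (Fin n → α)), ∀ i ∈ Set.Iio q,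
      ulim Z (fun z => v3 M t (bx (e i)) y z) = ε := by
    rw [Filter.eventually_all_finite (Set.finite_Iio q)]
    intro i hi
    have := ulim_spec (U := V) hfin (fun y => hr1 (bx (e i)) y)
    rw [h.x i hi] at this
    exact this
  obtain ⟨y, hy1, hy2, hy3, hy4⟩ := (hy1.and (hy2.and (fresh V hV (P ∪ Set.range x)
    (hP.union (Set.finite_range _))))).exists
  -- choice of `z`
  have hz1 : ∀ᶠ z in (Z : Filter (Fin k → α)), ∀ i ∈ Set.Iio q, ∀ j ∈ Set.Iio q, i < j →
      v3 M t (bx (e i)) (by' (e j)) z = ε := by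
    rw [Filter.eventually_all_finite (Set.finite_Iio q)]
    intro i hi
    rw [Filter.eventually_all_finite (Set.finite_Iio q)]
    intro j hj
    by_cases hij : i < j
    · have := ulim_spec (U := Z) hfin (fun z => hr (bx (e i)) (by' (e j)) z)
      rw [h.xy i j hij hj] at this
      exact this.mono (fun z hz _ => hz)
    · exact Eventually.of_forall (fun z h => absurd h hij)
  have hz2 : ∀ᶠ z in (Z : Filter (Fin k → α)), ∀ i ∈ Set.Iio q, ∀ j ∈ Set.Iio q, j < i →
      v3 M t (bx (e i)) (by' (e j)) z = ε' := by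
    rw [Filter.eventually_all_finite (Set.finite_Iio q)]
    intro i hi
    rw [Filter.eventually_all_finite (Set.finite_Iio q)]
    intro j hj
    by_cases hij : j < i
    · have := ulim_spec (U := Z) hfin (fun z => hr (bx (e i)) (by' (e j)) z)
      rw [h.yx i j hij hi] at this
      exact this.mono (fun z hz _ => hz)
    · exact Eventually.of_forall (fun z h => absurd h hij)
  obtain ⟨z, hz1, hz2, hz3, hz4⟩ := (hz1.and (hz2.and (fresh Z hZ (P ∪ Set.range x ∪ Set.range y)
    ((hP.union (Set.finite_range _)).union (Set.finite_range _))))).exists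
  refine ⟨Sum.elim x (Sum.elim y z), ?_⟩
  set w : Fin m ⊕ (Fin n ⊕ Fin k) → α := Sum.elim x (Sum.elim y z) with hw
  have hwP : ∀ c, w c ∉ P := by
    rintro (c | c | c)
    · exact hx3 c
    · exact fun h => hy3 c (Or.inl h)
    · exact fun h => hz3 c (Or.inl (Or.inl h))
  have hwinj : Injective w := by
    rintro (c | c | c) (d | d | d) hcd
    · rw [hx4 hcd]
    · exact absurd (show y d ∈ P ∪ Set.range x from Or.inr ⟨c, hcd⟩) (hy3 d)
    · exact absurd (show z d ∈ P ∪ Set.range x ∪ Set.range y from Or.inl (Or.inr ⟨c, hcd⟩))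
        (hz3 d)
    · exact absurd (show y c ∈ P ∪ Set.range x from Or.inr ⟨d, hcd.symm⟩) (hy3 c)
    · rw [hy4 hcd]
    · exact absurd (show z d ∈ P ∪ Set.range x ∪ Set.range y from Or.inr ⟨c, hcd⟩) (hz3 d)
    · exact absurd (show z c ∈ P ∪ Set.range x ∪ Set.range y from Or.inl (Or.inr ⟨d, hcd.symm⟩))
        (hz3 c)
    · exact absurd (show z c ∈ P ∪ Set.range x ∪ Set.range y from Or.inr ⟨d, hcd.symm⟩) (hz3 c)
    · rw [hz4 hcd]
  have hu : ∀ p, p < q → Function.update e q w p = e p := fun p hp =>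
    Function.update_of_ne hp.ne _ _
  have huq : Function.update e q w q = w := Function.update_self _ _ _
  refine ⟨?_, ?_, ?_, ?_, ?_, ?_, ?_, ?_⟩
  · intro i j l hij hjl hl
    rw [hu i (by omega), hu j (by omega)]
    by_cases hlq : l = q
    · subst hlq
      rw [huq]
      exact hz1 i (show i < l by omega) j hjl hij
    · rw [hu l (by omega)]
      exact h.xyz i j l hij hjl (by omega)
  · intro i j l hij hjl hl
    rw [hu i (by omega), hu j (by omega)]
    by_cases hlq : l = q
    · subst hlq
      rw [huq]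
      exact hz2 i (show i < l by omega) j (show j < l by omega) hij
    · rw [hu l (by omega)]
      exact h.yxz i j l hij hjl (by omega)
  · intro i j hij hj
    rw [hu i (by omega)]
    by_cases hjq : j = q
    · subst hjq
      rw [huq]
      exact hy2 i hij
    · rw [hu j (by omega)]
      exact h.xy i j hij (by omega)
  · intro i j hij hi
    rw [hu j (by omega)]
    by_cases hiq : i = q
    · subst hiq
      rw [huq]
      exact hx2 j hij
    · rw [hu i (by omega)]
      exact h.yx i j hij (by omega)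
  · intro i hi
    by_cases hiq : i = q
    · subst hiq
      rw [huq]
      exact hx1
    · rw [hu i (by omega)]
      exact h.x i (by omega)
  · intro i hi
    by_cases hiq : i = q
    · subst hiq
      rw [huq]
      exact hy1
    · rw [hu i (by omega)]
      exact h.y i (by omega)
  · intro i j c d hi hj hcd
    by_cases hiq : i = q <;> by_cases hjq : j = q
    · subst hiq
      subst hjq
      rw [huq] at hcd
      exact ⟨rfl, hwinj hcd⟩
    · subst hiq
      rw [huq, hu j (by omega)] at hcd
      exact absurd (hcd ▸ hPe j (by omega) d) (hwP c)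
    · subst hjq
      rw [huq, hu i (by omega)] at hcd
      exact absurd (hcd.symm ▸ hPe i (by omega) c) (hwP d)
    · rw [hu i (by omega), hu j (by omega)] at hcd
      exact h.inj i j c d (by omega) (by omega) hcd
  · intro i c hi
    by_cases hiq : i = q
    · subst hiq
      rw [huq]
      exact fun h => hwP c (Or.inl h)
    · rw [hu i (by omega)]
      exact h.notA i c (by omega)

/-- a failure of commutation is visible in a sequence of blocks -/
theorem exists_noncomm_seq {M : Col r K α} (hfin : (Set.range M).Finite)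
    (U : Ultrafilter (Fin m → α)) (V : Ultrafilter (Fin n → α)) (Z : Ultrafilter (Fin k → α))
    (hU : GoodOn U Set.univ) (hV : GoodOn V Set.univ) (hZ : GoodOn Z Set.univ)
    (t : Fin r → α ⊕ (Fin m ⊕ (Fin n ⊕ Fin k))) (hnc : ¬ CommAt M U V Z t)
    (A : Set α) (hA : A.Finite) :
    ∃ (e : ℕ → Fin m ⊕ (Fin n ⊕ Fin k) → α) (ε ε' : K), ε ≠ ε' ∧
      (∀ i j c d, e i c = e j d → i = j ∧ c = d) ∧ (∀ i c, e i c ∉ A) ∧
      (∀ i j l, i < j → j < l → v3 M t (bx (e i)) (by' (e j)) (bz (e l)) = ε) ∧
      (∀ i j l, j < i → i < l → v3 M t (bx (e i)) (by' (e j)) (bz (e l)) = ε') := by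
  classical
  obtain ⟨e, he⟩ := exists_seq_of_step
    (fun q e => NcInv M U V Z t
      (ulim U (fun x => ulim V (fun y => ulim Z (fun z => v3 M t x y z))))
      (ulim V (fun y => ulim U (fun x => ulim Z (fun z => v3 M t x y z)))) A q e) (by
      intro q e e' hee h
      refine ⟨?_, ?_, ?_, ?_, ?_, ?_, ?_, ?_⟩
      · intro i j l h1 h2 h3
        rw [← hee i (by omega), ← hee j (by omega), ← hee l h3]
        exact h.xyz i j l h1 h2 h3
      · intro i j l h1 h2 h3
        rw [← hee i (by omega), ← hee j (by omega), ← hee l h3]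
        exact h.yxz i j l h1 h2 h3
      · intro i j h1 h2
        rw [← hee i (by omega), ← hee j h2]
        exact h.xy i j h1 h2
      · intro i j h1 h2
        rw [← hee j (by omega), ← hee i h2]
        exact h.yx i j h1 h2
      · intro i h1
        rw [← hee i h1]
        exact h.x i h1
      · intro i h1
        rw [← hee i h1]
        exact h.y i h1
      · intro i j c d h1 h2
        rw [← hee i h1, ← hee j h2]
        exact h.inj i j c d h1 h2
      · intro i c h1
        rw [← hee i h1]
        exact h.notA i c h1)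
    (fun _ => Sum.elim (upt U) (Sum.elim (upt V) (upt Z))) (by
      refine ⟨?_, ?_, ?_, ?_, ?_, ?_, ?_, ?_⟩ <;> intros <;> omega)
    (fun q e h => ncInv_step hfin U V Z hU hV hZ t _ _ rfl rfl A hA q e h)
  refine ⟨e, _, _, hnc, ?_, ?_, ?_, ?_⟩
  · intro i j c d h
    exact (he (max i j + 1)).inj i j c d (by omega) (by omega) h
  · intro i c
    exact (he (i + 1)).notA i c (by omega)
  · intro i j l h1 h2
    exact (he (l + 1)).xyz i j l h1 h2 (by omega)
  · intro i j l h1 h2
    exact (he (l + 1)).yxz i j l h1 h2 (by omega)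

end

/-- commutation in all homogeneous block sequences gives commutation of all limits -/
theorem nice_of_perp {N : Col r K ℕ} (hfin : (Set.range N).Finite)
    (hP : ∀ (A : Set ℕ) (ι : Type) [Finite ι] (e : ℕ → ι → ℕ), A.Finite → H17.TA.Hom N A e →
      ∀ (κ κ' : Type) [Finite κ] [Finite κ'] (τ : κ → ι) (τ' : κ' → ι),
        H17.TA.Perp N A e τ τ') : Nice N := by
  classical
  refine ⟨hfin, fun m n => comm_of_commF hfin (fun m' _ n' _ => ?_)⟩
  intro k U V Z hU hV hZ t
  by_contra hnc
  let A : Set ℕ := {a | ∃ s, t s = Sum.inl a}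
  have hA : A.Finite := by
    refine (Set.finite_range (fun s => Sum.elim id (fun _ => 0) (t s))).subset ?_
    rintro a ⟨s, hs⟩
    exact ⟨s, by simp [hs]⟩
  obtain ⟨e, ε, ε', hne, hinj, hnotA, h1, h2⟩ :=
    exists_noncomm_seq hfin U V Z hU hV hZ t hnc A hA
  obtain ⟨φ, hφ, hH⟩ := H17.TA.hom_sub (N := N) (A := A) (e := e) hfin hA hinj hnotA
  have hp := hP A (Fin m' ⊕ (Fin n' ⊕ Fin k)) (fun i => e (φ i)) hA hH (Fin m') (Fin n')
    Sum.inl (fun c => Sum.inr (Sum.inl c))
  have h3 := hp 0 2 2 (by omega) (by omega) (by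
      rintro (c | c) <;> simp [H17.TA.blk]) (by
      rintro (c | c) <;> simp [H17.TA.blk])
    (fun j => Sum.map id (Sum.elim (fun c => Sum.inr (Sum.inl (Sum.inl c)))
      (Sum.elim (fun c => Sum.inr (Sum.inl (Sum.inr c)))
        (fun c => Sum.inr (Sum.inr (0, Sum.inr (Sum.inr c)))))) (t j)) (by
      constructor
      · intro j a hj
        rcases htj : t j with b | c | c | c
        · simp only [htj, Sum.map_inl, id] at hj
          exact ⟨j, by rw [htj, Sum.inl.inj hj]⟩
        · simp [htj] at hj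
        · simp [htj] at hj
        · simp [htj] at hj
      · intro j p hj
        rcases htj : t j with b | c | c | c <;> simp [htj] at hj)
  have h4 := h1 (φ 0) (φ 1) (φ 2) (hφ (by omega)) (hφ (by omega))
  have h5 := h2 (φ 1) (φ 0) (φ 2) (hφ (by omega)) (hφ (by omega))
  apply hne
  rw [← h4, ← h5]
  refine Eq.trans ?_ (Eq.trans h3 ?_)
  · unfold v3
    congr 1
    funext j
    simp only [Function.comp]
    rcases t j with b | c | c | c <;> rfl
  · unfold v3
    congr 1
    funext j
    simp only [Function.comp]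
    rcases t j with b | c | c | c <;> rfl

/-- CH. 3 of the structure theorem: a structure on `ℕ` which is not wild and all of whose
homogeneous block sequences commute is cellular -/
theorem cellular_of_perp {N : Col r K ℕ} (hfin : (Set.range N).Finite)
    (hW : ¬ Wild N Set.univ)
    (hP : ∀ (A : Set ℕ) (ι : Type) [Finite ι] (e : ℕ → ι → ℕ), A.Finite → H17.TA.Hom N A e →
      ∀ (κ κ' : Type) [Finite κ] [Finite κ'] (τ : κ → ι) (τ' : κ' → ι),
        H17.TA.Perp N A e τ τ') : Cellular N :=
  cellular_of_nice N (nice_of_perp hfin hP) hW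

end Pool.H22.VN
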