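import Pool.Agent.H22.VC.GenSys

/-!
# Realising generic extensions inside the structure itself

If only finitely many functions `a ↦ Gen M W (t, a)` occur then the cells of the generic extension
can be chosen inside `M`.
-/

set_option autoImplicit false

namespace Pool.H22.VN

open Filter Function Pool.H22.VC

variable {r : ℕ} {K α ι : Type}

/-- the tuple with template `t` and parameters `a` -/
def fil {L : Type} (t : Fin r → Option (L × ι)) (a : Fin r → α) : Fin r → α ⊕ (L × ι) :=
  fun i => match t i with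
    | some pc => Sum.inr pc
    | none => Sum.inl (a i)

/-- the functions of the parameters given by templates -/
def FamT {L : Type} [LinearOrder L] (M : Col r K α) (W : L → Ultrafilter (ι → α))
    (I : L → Set ι) : Set ((Fin r → α) → K) :=
  {g | ∃ t : Fin r → Option (L × ι),
    (∀ i p c, t i = some (p, c) → c ∈ I p) ∧ g = fun a => Gen M W (fil t a)}

/-- substitution of `x` at the position `k` -/
def put {L : Type} [DecidableEq L] (k : L) (x : ι → α) (s : Fin r → α ⊕ (L × ι)) :
    Fin r → α ⊕ (L × ι) :=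
  fun i => Sum.elim Sum.inl (fun pc => if pc.1 = k then Sum.inl (x pc.2) else Sum.inr pc) (s i)

theorem gen_put {L : Type} [LinearOrder L] (M : Col r K α) (W : L → Ultrafilter (ι → α)) (k : L)
    (s : Fin r → α ⊕ (L × ι)) (hs : ∀ i p c, s i = Sum.inr (p, c) → k ≤ p) :
    Gen M W s = ulim (W k) (fun x => Gen M W (put k x s)) := by
  classical
  set l := ((posT s).erase k).sort (· ≤ ·) with hl
  have meml : ∀ p, p ∈ l ↔ p ≠ k ∧ p ∈ posT s := by
    intro p
    rw [hl, Finset.mem_sort, Finset.mem_erase]
  have hk : ∀ p ∈ l, k < p := by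
    intro p hp
    obtain ⟨h1, h2⟩ := (meml p).1 hp
    obtain ⟨i, c, hi⟩ := (mem_posT s p).1 h2
    exact lt_of_le_of_ne (hs i p c hi) (Ne.symm h1)
  have hll : l.Pairwise (· < ·) := sort_pairwise_lt _
  have hpl : (k :: l).Pairwise (· < ·) := List.pairwise_cons.2 ⟨hk, hll⟩
  have hsub : ∀ p ∈ posT s, p ∈ k :: l := by
    intro p hp
    by_cases h : p = k
    · rw [h]
      exact List.mem_cons_self
    · exact List.mem_cons_of_mem _ ((meml p).2 ⟨h, hp⟩)
  rw [gen_eq_itl M W s (k :: l) hpl hsub (fun p => upt (W p))]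
  show ulim (W k) (fun x => itl W l (fun e => M (ev e ∘ s))
    (Function.update (fun p => upt (W p)) k x)) = _
  congr 1
  funext x
  rw [gen_eq_itl M W (put k x s) l hll (by
    intro p hp
    obtain ⟨i, c, hi⟩ := (mem_posT _ p).1 hp
    unfold put at hi
    rcases hsi : s i with a | ⟨p', c'⟩
    · rw [hsi] at hi
      simp at hi
    · rw [hsi] at hi
      by_cases h : p' = k
      · simp [h] at hi
      · simp only [Sum.elim_inr, if_neg h] at hi
        have h1 := Prod.mk.inj (Sum.inr.inj hi)
        rw [← h1.1]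
        exact (meml p').2 ⟨h, (mem_posT s p').2 ⟨i, c', hsi⟩⟩)
    (Function.update (fun p => upt (W p)) k x)]
  refine itl_freeze W l _ _ _ (fun e' he' => ?_)
  show M (ev e' ∘ s) = M (ev e' ∘ put k x s)
  congr 1
  funext i
  simp only [Function.comp, put]
  rcases hsi : s i with a | ⟨p', c'⟩
  · rfl
  · by_cases h : p' = k
    · subst h
      simp only [Sum.elim_inr, if_pos]
      show e' p' c' = x c'
      rw [he' p' (fun h => ((meml p').1 h).1 rfl), Function.update_self]
    · simp only [Sum.elim_inr, if_neg h]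

theorem real_step [Nonempty α] {M : Col r K α} (hfin : (Set.range M).Finite)
    (W : ℕ → Ultrafilter (ι → α)) (I : ℕ → Set ι) (hF : (FamT M W I).Finite) (k : ℕ)
    (hIk : (I k).Finite) (P : Set α) (hP : P.Finite) :
    ∀ᶠ x in (W k : Filter (ι → α)), ∀ s : Fin r → α ⊕ (ℕ × ι),
      (∀ i a, s i = Sum.inl a → a ∈ P) →
      (∀ i p c, s i = Sum.inr (p, c) → k ≤ p ∧ c ∈ I p) →
      Gen M W (put k x s) = Gen M W s := by
  classical
  obtain ⟨a₀⟩ := ‹Nonempty α›
  let R : Set (α ⊕ ι) := Sum.inl '' (insert a₀ P) ∪ Sum.inr '' (I k)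
  have hR : R.Finite := ((hP.insert a₀).image _).union (hIk.image _)
  let S : Set (((Fin r → α) → K) × (Fin r → α ⊕ ι)) :=
    FamT M W I ×ˢ Set.pi Set.univ (fun _ => R)
  have hS : S.Finite := hF.prod (Set.Finite.pi (fun _ => hR))
  have h1 : ∀ᶠ x in (W k : Filter (ι → α)), ∀ q ∈ S,
      q.1 (fun i => Sum.elim id x (q.2 i)) =
        ulim (W k) (fun x => q.1 (fun i => Sum.elim id x (q.2 i))) := by
    rw [Filter.eventually_all_finite hS]
    intro q hq
    obtain ⟨⟨t, ht, hg⟩, -⟩ := hq
    refine ulim_spec hfin (fun x => ?_)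
    rw [hg]
    exact gen_mem_range hfin W _
  refine h1.mono (fun x hx s hsP hsI => ?_)
  let τ : Fin r → Option (ℕ × ι) := fun i =>
    Sum.elim (fun _ => none) (fun pc => if pc.1 = k then none else some pc) (s i)
  let ρ : Fin r → α ⊕ ι := fun i =>
    Sum.elim Sum.inl (fun pc => if pc.1 = k then Sum.inr pc.2 else Sum.inl a₀) (s i)
  have key : ∀ x : ι → α, fil τ (fun i => Sum.elim id x (ρ i)) = put k x s := by
    intro x
    funext i
    simp only [fil, put, τ, ρ]
    rcases hsi : s i with a | ⟨p, c⟩
    · rfl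
    · by_cases h : p = k
      · simp [h]
      · simp [h]
  have h2 := hx (fun a => Gen M W (fil τ a), ρ) ⟨⟨τ, by
      intro i p c hi
      simp only [τ] at hi
      rcases hsi : s i with a | ⟨p', c'⟩
      · rw [hsi] at hi
        simp at hi
      · rw [hsi] at hi
        by_cases h : p' = k
        · simp [h] at hi
        · simp only [Sum.elim_inr, if_neg h] at hi
          have h1 := Prod.mk.inj (Option.some.inj hi)
          rw [← h1.1, ← h1.2]
          exact (hsI i p' c' hsi).2, rfl⟩, by
      intro i _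
      simp only [ρ]
      rcases hsi : s i with a | ⟨p', c'⟩
      · exact Or.inl ⟨a, Set.mem_insert_of_mem _ (hsP i a hsi), rfl⟩
      · by_cases h : p' = k
        · simp only [Sum.elim_inr, if_pos h]
          refine Or.inr ⟨c', ?_, rfl⟩
          rw [← h]
          exact (hsI i p' c' hsi).2
        · simp only [Sum.elim_inr, if_neg h]
          exact Or.inl ⟨a₀, Set.mem_insert _ _, rfl⟩⟩
  simp only [key] at h2
  rw [h2, ← gen_put M W k s (fun i p c h => (hsI i p c h).1)]

/-- substitution at all positions below `k` -/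
def sub (k : ℕ) (e : ℕ → ι → α) (t : Fin r → α ⊕ (ℕ × ι)) : Fin r → α ⊕ (ℕ × ι) :=
  fun i => Sum.elim Sum.inl
    (fun pc => if pc.1 < k then Sum.inl (e pc.1 pc.2) else Sum.inr pc) (t i)

theorem sub_congr (k : ℕ) (e e' : ℕ → ι → α) (h : ∀ p < k, e p = e' p)
    (t : Fin r → α ⊕ (ℕ × ι)) : sub k e t = sub k e' t := by
  funext i
  simp only [sub]
  rcases t i with a | ⟨p, c⟩
  · rfl
  · by_cases hp : p < k
    · simp [hp, h p hp]
    · simp [hp]

/-- the invariant of the construction -/
structure Inv (M : Col r K α) (W : ℕ → Ultrafilter (ι → α)) (I : ℕ → Set ι) (A : Set α)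
    (k : ℕ) (e : ℕ → ι → α) : Prop where
  val : ∀ t : Fin r → α ⊕ (ℕ × ι), (∀ i a, t i = Sum.inl a → a ∈ A) →
    (∀ i p c, t i = Sum.inr (p, c) → c ∈ I p) → Gen M W (sub k e t) = Gen M W t
  notA : ∀ p < k, ∀ c ∈ I p, e p c ∉ A
  inj : ∀ p < k, ∀ p' < k, ∀ c ∈ I p, ∀ c' ∈ I p', e p c = e p' c' → p = p' ∧ c = c'

theorem inv_step [Nonempty α] {M : Col r K α} (hfin : (Set.range M).Finite)
    (W : ℕ → Ultrafilter (ι → α)) (I : ℕ → Set ι) (hI : ∀ p, (I p).Finite)
    (hg : ∀ p, GoodOn (W p) (I p)) (hF : (FamT M W I).Finite) (A : Set α) (hA : A.Finite)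
    (k : ℕ) (e : ℕ → ι → α) (h : Inv M W I A k e) :
    ∃ x : ι → α, Inv M W I A (k + 1) (Function.update e k x) := by
  classical
  let P : Set α := A ∪ ⋃ p ∈ Set.Iio k, e p '' I p
  have hP : P.Finite :=
    hA.union ((Set.finite_Iio k).biUnion (fun p _ => (hI p).image _))
  have hPe : ∀ p < k, ∀ c ∈ I p, e p c ∈ P := fun p hp c hc =>
    Or.inr (Set.mem_biUnion (show p ∈ Set.Iio k from hp) ⟨c, hc, rfl⟩)
  have h1 := real_step hfin W I hF k (hI k) P hP
  have h2 : ∀ᶠ x in (W k : Filter (ι → α)), ∀ c ∈ I k, ∀ a ∈ P, x c ≠ a := by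
    rw [Filter.eventually_all_finite (hI k)]
    intro c hc
    rw [Filter.eventually_all_finite hP]
    intro a _
    exact (hg k).1 c hc a
  have h3 : ∀ᶠ x in (W k : Filter (ι → α)), ∀ c ∈ I k, ∀ c' ∈ I k, c ≠ c' → x c ≠ x c' := by
    rw [Filter.eventually_all_finite (hI k)]
    intro c hc
    rw [Filter.eventually_all_finite (hI k)]
    intro c' hc'
    by_cases hcc : c = c'
    · exact Eventually.of_forall (fun x h => absurd hcc h)
    · exact ((hg k).2 c hc c' hc' hcc).mono (fun x hx _ => hx)
  obtain ⟨x, hx1, hx2, hx3⟩ := (h1.and (h2.and h3)).exists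
  refine ⟨x, ?_, ?_, ?_⟩
  · intro t htA htI
    have e1 : sub (k + 1) (Function.update e k x) t = put k x (sub k e t) := by
      funext i
      simp only [sub, put]
      rcases t i with a | ⟨p, c⟩
      · rfl
      · by_cases hp : p < k
        · simp [hp, hp.le, Function.update_of_ne hp.ne]
        · by_cases hpk : p = k
          · subst hpk
            simp
          · have hpk1 : k < p := by omega
            simp [hp, hpk, hpk1]
    rw [e1, hx1 (sub k e t), h.val t htA htI]
    · intro i a hi
      simp only [sub] at hi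
      rcases hti : t i with b | ⟨p, c⟩
      · rw [hti] at hi
        have : b = a := Sum.inl.inj hi
        rw [← this]
        exact Or.inl (htA i b hti)
      · rw [hti] at hi
        by_cases hp : p < k
        · simp only [Sum.elim_inr, if_pos hp] at hi
          rw [← Sum.inl.inj hi]
          exact hPe p hp c (htI i p c hti)
        · simp [hp] at hi
    · intro i p c hi
      simp only [sub] at hi
      rcases hti : t i with b | ⟨p', c'⟩
      · rw [hti] at hi
        simp at hi
      · rw [hti] at hi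
        by_cases hp : p' < k
        · simp [hp] at hi
        · simp only [Sum.elim_inr, if_neg hp] at hi
          have h4 := Prod.mk.inj (Sum.inr.inj hi)
          rw [← h4.1, ← h4.2]
          exact ⟨not_lt.1 hp, htI i p' c' hti⟩
  · intro p hp c hc
    by_cases hpk : p = k
    · subst hpk
      rw [Function.update_self]
      exact fun hA' => hx2 c hc _ (Or.inl hA') rfl
    · rw [Function.update_of_ne hpk]
      exact h.notA p (by omega) c hc
  · intro p hp p' hp' c hc c' hc' hcc
    by_cases hpk : p = k <;> by_cases hpk' : p' = k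
    · subst hpk
      subst hpk'
      rw [Function.update_self] at hcc
      refine ⟨rfl, ?_⟩
      by_contra hne
      exact hx3 c hc c' hc' hne hcc
    · subst hpk
      rw [Function.update_self, Function.update_of_ne hpk'] at hcc
      exact absurd hcc (hx2 c hc _ (hPe p' (by omega) c' hc'))
    · subst hpk'
      rw [Function.update_self, Function.update_of_ne hpk] at hcc
      exact absurd hcc.symm (hx2 c' hc' _ (hPe p (by omega) c hc))
    · rw [Function.update_of_ne hpk, Function.update_of_ne hpk'] at hcc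
      exact h.inj p (by omega) p' (by omega) c hc c' hc' hcc

/-- Realisation: the cells of a generic extension with finitely many template functions exist
inside the structure. -/
theorem exists_real [Nonempty α] {M : Col r K α} (hfin : (Set.range M).Finite)
    (W : ℕ → Ultrafilter (ι → α)) (I : ℕ → Set ι) (hI : ∀ p, (I p).Finite)
    (hg : ∀ p, GoodOn (W p) (I p)) (hF : (FamT M W I).Finite) (A : Set α) (hA : A.Finite) :
    ∃ e : ℕ → ι → α, (∀ p p' c c', c ∈ I p → c' ∈ I p' → e p c = e p' c' → p = p' ∧ c = c') ∧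
      (∀ p c, c ∈ I p → e p c ∉ A) ∧
      ∀ t : Fin r → α ⊕ (ℕ × ι), (∀ i a, t i = Sum.inl a → a ∈ A) →
        (∀ i p c, t i = Sum.inr (p, c) → c ∈ I p) → M (ev e ∘ t) = Gen M W t := by
  classical
  have h0 : Inv M W I A 0 (fun p => upt (W p)) := by
    refine ⟨?_, fun p hp => absurd hp (Nat.not_lt_zero p), fun p hp => absurd hp (Nat.not_lt_zero p)⟩
    intro t _ _
    congr 1
    funext i
    simp only [sub]
    rcases t i with a | ⟨p, c⟩
    · rfl
    · simp
  let st : (k : ℕ) → {e : ℕ → ι → α // Inv M W I A k e} := fun k =>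
    Nat.rec ⟨_, h0⟩ (fun k e => ⟨Function.update e.1 k
      (inv_step hfin W I hI hg hF A hA k e.1 e.2).choose,
      (inv_step hfin W I hI hg hF A hA k e.1 e.2).choose_spec⟩) k
  have hst : ∀ k, (st (k + 1)).1 = Function.update (st k).1 k
      (inv_step hfin W I hI hg hF A hA k (st k).1 (st k).2).choose := fun k => rfl
  let e : ℕ → ι → α := fun p => (st (p + 1)).1 p
  have he : ∀ k p, p < k → (st k).1 p = e p := by
    intro k
    induction k with
    | zero => intro p hp; exact absurd hp (Nat.not_lt_zero p)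
    | succ k ih =>
      intro p hp
      by_cases hpk : p = k
      · subst hpk
        rfl
      · rw [hst k, Function.update_of_ne hpk]
        exact ih p (by omega)
  refine ⟨e, ?_, ?_, ?_⟩
  · intro p p' c c' hc hc' hcc
    have h1 := (st (max p p' + 1)).2.inj p (by omega) p' (by omega) c hc c' hc'
    rw [he _ p (by omega), he _ p' (by omega)] at h1
    exact h1 hcc
  · intro p c hc
    exact (st (p + 1)).2.notA p (by omega) c hc
  · intro t htA htI
    obtain ⟨k, hk⟩ : ∃ k, ∀ p ∈ posT t, p < k :=
      ⟨(posT t).sup id + 1, fun p hp => Nat.lt_succ_of_le (Finset.le_sup (f := id) hp)⟩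
    rw [← (st k).2.val t htA htI, sub_congr k _ e (he k), ← gen_inl M W]
    congr 1
    funext i
    simp only [sub, Function.comp]
    rcases hti : t i with a | ⟨p, c⟩
    · rfl
    · have : p < k := hk p ((mem_posT t p).2 ⟨i, c, hti⟩)
      simp [this, ev]

end Pool.H22.VN
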