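import Pool.Agent.H22.VN.Real

/-!
# Renaming the coordinates of the cells of a generic extension
-/

set_option autoImplicit false

namespace Pool.H22.VN

open Filter Function Pool.H22.VC

variable {r : ℕ} {K α ι : Type}

/-- the entries of `t` outside the position `p₀` evaluated by `e` -/
def lst {L : Type} [DecidableEq L] (p₀ : L) (t : Fin r → α ⊕ (L × ι)) (e : L → ι → α) :
    Fin r → α ⊕ ι :=
  fun i => Sum.elim Sum.inl
    (fun pc => if pc.1 = p₀ then Sum.inr pc.2 else Sum.inl (e pc.1 pc.2)) (t i)

/-- the limit over the position `p₀` can be taken last -/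
theorem gen_last {L : Type} [LinearOrder L] {M : Col r K α} (hN : Nice M)
    (W : L → Ultrafilter (ι → α)) (t : Fin r → α ⊕ (L × ι))
    (hgt : ∀ p, GoodOn (W p) (partT t p : Set ι)) (p₀ : L) (Q : Finset L) (hp : p₀ ∉ Q)
    (hQ : ∀ p ∈ posT t, p = p₀ ∨ p ∈ Q) (e : L → ι → α) :
    Gen M W t = itl W (Q.sort (· ≤ ·)) (fun e => LT M (W p₀) (lst p₀ t e)) e := by
  classical
  have hnd : (Q.sort (· ≤ ·) ++ [p₀]).Nodup := by
    rw [List.nodup_append]
    refine ⟨Finset.sort_nodup _ _, List.nodup_singleton _, ?_⟩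
    intro p hp' q hq hpq
    rw [Finset.mem_sort] at hp'
    rw [List.mem_singleton] at hq
    rw [hpq, hq] at hp'
    exact hp hp'
  have hperm : ((insert p₀ Q).sort (· ≤ ·)).Perm (Q.sort (· ≤ ·) ++ [p₀]) := by
    rw [List.perm_ext_iff_of_nodup (Finset.sort_nodup _ _) hnd]
    intro p
    rw [Finset.mem_sort, List.mem_append, Finset.mem_sort, List.mem_singleton,
      Finset.mem_insert]
    exact or_comm
  rw [gen_eq_itl M W t ((insert p₀ Q).sort (· ≤ ·)) (sort_pairwise_lt _)
    (fun p hp' => (Finset.mem_sort _).2 (Finset.mem_insert.2 (hQ p hp'))) e,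
    itl_perm hN W t hgt hperm (Finset.sort_nodup _ _) e, itl_append]
  congr 1
  funext e
  show ulim (W p₀) (fun x => M (ev (Function.update e p₀ x) ∘ t)) =
    ulim (W p₀) (fun x => M (Sum.elim id x ∘ lst p₀ t e))
  congr 1
  funext x
  congr 1
  funext i
  simp only [Function.comp, lst]
  rcases t i with a | ⟨p, c⟩
  · rfl
  · by_cases h : p = p₀
    · subst h
      simp [ev]
    · simp [ev, h]

/-- renaming the coordinates at one position -/
theorem gen_ren1 {L : Type} [LinearOrder L] {M : Col r K α} (hN : Nice M)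
    (W : L → Ultrafilter (ι → α)) (t : Fin r → α ⊕ (L × ι))
    (hgt : ∀ p, GoodOn (W p) (partT t p : Set ι)) (p₀ : L) (π : ι → ι)
    (hgt' : GoodOn (W p₀) (π '' (partT t p₀ : Set ι)))
    (hLT : ∀ s : Fin r → α ⊕ ι, (∀ i c, s i = Sum.inr c → c ∈ partT t p₀) →
      LT M (W p₀) (Sum.map id π ∘ s) = LT M (W p₀) s) :
    Gen M W (Sum.map id (fun pc : L × ι => (pc.1, if pc.1 = p₀ then π pc.2 else pc.2)) ∘ t) =
      Gen M W t := by
  classical
  set t' := Sum.map id (fun pc : L × ι => (pc.1, if pc.1 = p₀ then π pc.2 else pc.2)) ∘ t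
    with ht'
  have hpart : ∀ p c, c ∈ partT t' p → (p ≠ p₀ ∧ c ∈ partT t p) ∨
      (p = p₀ ∧ ∃ c' ∈ partT t p₀, π c' = c) := by
    intro p c hc
    rw [mem_partT] at hc
    obtain ⟨i, hi⟩ := hc
    simp only [ht', Function.comp] at hi
    rcases hti : t i with a | ⟨p', c'⟩
    · rw [hti] at hi
      simp at hi
    · rw [hti] at hi
      have h1 := Prod.mk.inj (Sum.inr.inj hi)
      have h2 : p' = p := h1.1
      by_cases h : p' = p₀
      · right
        have h3 := h1.2
        simp only [if_pos h] at h3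
        exact ⟨h2 ▸ h, c', (mem_partT t p₀ c').2 ⟨i, by rw [hti, h]⟩, h3⟩
      · left
        have h3 := h1.2
        simp only [if_neg h] at h3
        refine ⟨fun hh => h (h2.trans hh), ?_⟩
        rw [mem_partT]
        exact ⟨i, by rw [hti, h2, h3]⟩
  have hgt1 : ∀ p, GoodOn (W p) (partT t' p : Set ι) := by
    intro p
    by_cases h : p = p₀
    · rw [h]
      refine hgt'.mono ?_
      intro c hc
      rcases hpart p₀ c hc with h1 | ⟨-, c', h1, h2⟩
      · exact absurd rfl h1.1
      · exact ⟨c', h1, h2⟩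
    · refine (hgt p).mono ?_
      intro c hc
      rcases hpart p c hc with h1 | h1
      · exact h1.2
      · exact absurd h1.1 h
  let e₀ : L → ι → α := fun p => upt (W p)
  have hQ : ∀ p ∈ posT t, p = p₀ ∨ p ∈ (posT t).erase p₀ := by
    intro p hp
    by_cases h : p = p₀
    · exact Or.inl h
    · exact Or.inr (Finset.mem_erase.2 ⟨h, hp⟩)
  have hQ' : ∀ p ∈ posT t', p = p₀ ∨ p ∈ (posT t).erase p₀ := by
    intro p hp
    obtain ⟨i, c, hi⟩ := (mem_posT t' p).1 hp
    apply hQ
    simp only [ht', Function.comp] at hi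
    rcases hti : t i with a | ⟨p', c'⟩
    · rw [hti] at hi
      simp at hi
    · rw [hti] at hi
      have h1 := Prod.mk.inj (Sum.inr.inj hi)
      rw [← h1.1]
      exact (mem_posT t p').2 ⟨i, c', hti⟩
  rw [gen_last hN W t hgt p₀ _ (Finset.notMem_erase p₀ _) hQ e₀,
    gen_last hN W t' hgt1 p₀ _ (Finset.notMem_erase p₀ _) hQ' e₀]
  congr 1
  funext e
  rw [← hLT (lst p₀ t e)]
  · congr 1
    funext i
    simp only [lst, ht', Function.comp]
    rcases t i with a | ⟨p', c'⟩
    · rfl
    · by_cases h : p' = p₀ <;> simp [h]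
  · intro i c hi
    simp only [lst] at hi
    rcases hti : t i with a | ⟨p', c'⟩
    · rw [hti] at hi
      simp at hi
    · rw [hti] at hi
      by_cases h : p' = p₀
      · simp only [Sum.elim_inr, if_pos h] at hi
        rw [mem_partT]
        exact ⟨i, by rw [hti, h, Sum.inr.inj hi]⟩
      · simp [h] at hi

/-- renaming the coordinates at all positions -/
theorem gen_ren {L : Type} [LinearOrder L] {M : Col r K α} (hN : Nice M)
    (W : L → Ultrafilter (ι → α)) (t : Fin r → α ⊕ (L × ι)) (π : L → ι → ι)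
    (hgt : ∀ p, GoodOn (W p) (partT t p : Set ι))
    (hgt' : ∀ p, GoodOn (W p) (π p '' (partT t p : Set ι)))
    (hLT : ∀ p, ∀ s : Fin r → α ⊕ ι, (∀ i c, s i = Sum.inr c → c ∈ partT t p) →
      LT M (W p) (Sum.map id (π p) ∘ s) = LT M (W p) s) :
    Gen M W (Sum.map id (fun pc : L × ι => (pc.1, π pc.1 pc.2)) ∘ t) = Gen M W t := by
  classical
  have key : ∀ Q : Finset L, Gen M W (Sum.map id (fun pc : L × ι =>
      (pc.1, if pc.1 ∈ Q then π pc.1 pc.2 else pc.2)) ∘ t) = Gen M W t := by
    intro Q
    induction Q using Finset.induction_on with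
    | empty =>
      congr 1
      funext i
      simp only [Function.comp]
      rcases t i with a | ⟨p, c⟩ <;> simp
    | insert p₀ Q hp₀ ih =>
      rw [← ih]
      set tQ := Sum.map id (fun pc : L × ι =>
        (pc.1, if pc.1 ∈ Q then π pc.1 pc.2 else pc.2)) ∘ t with htQ
      have hpart : ∀ p c, c ∈ partT tQ p → (p ∉ Q ∧ c ∈ partT t p) ∨
          (p ∈ Q ∧ ∃ c' ∈ partT t p, π p c' = c) := by
        intro p c hc
        rw [mem_partT] at hc
        obtain ⟨i, hi⟩ := hc
        simp only [htQ, Function.comp] at hi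
        rcases hti : t i with a | ⟨p', c'⟩
        · rw [hti] at hi
          simp at hi
        · rw [hti] at hi
          have h1 := Prod.mk.inj (Sum.inr.inj hi)
          have h2 : p' = p := h1.1
          by_cases h : p' ∈ Q
          · right
            have h3 := h1.2
            simp only [if_pos h] at h3
            rw [h2] at h3
            exact ⟨h2 ▸ h, c', (mem_partT t p c').2 ⟨i, by rw [hti, h2]⟩, h3⟩
          · left
            have h3 := h1.2
            simp only [if_neg h] at h3
            refine ⟨fun hh => h (h2 ▸ hh), ?_⟩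
            rw [mem_partT]
            exact ⟨i, by rw [hti, h2, h3]⟩
      have hpart0 : ∀ c, c ∈ partT tQ p₀ → c ∈ partT t p₀ := by
        intro c hc
        rcases hpart p₀ c hc with h1 | h1
        · exact h1.2
        · exact absurd h1.1 hp₀
      have h1 := gen_ren1 hN W tQ (by
        intro p
        by_cases h : p ∈ Q
        · refine (hgt' p).mono ?_
          intro c hc
          rcases hpart p c hc with h1 | ⟨-, c', h1, h2⟩
          · exact absurd h h1.1
          · exact ⟨c', h1, h2⟩
        · refine (hgt p).mono ?_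
          intro c hc
          rcases hpart p c hc with h1 | h1
          · exact h1.2
          · exact absurd h1.1 h) p₀ (π p₀) ((hgt' p₀).mono (by
        rintro c ⟨c', h1, h2⟩
        exact ⟨c', hpart0 c' h1, h2⟩)) (fun s hs => hLT p₀ s (fun i c hi => hpart0 c (hs i c hi)))
      rw [← h1]
      congr 1
      funext i
      simp only [htQ, Function.comp]
      rcases t i with a | ⟨p, c⟩
      · rfl
      · by_cases h : p = p₀
        · subst h
          simp [hp₀]
        · by_cases h' : p ∈ Q <;> simp [h, h']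
  have h1 := key (posT t)
  rw [← h1]
  congr 1
  funext i
  simp only [Function.comp]
  rcases hti : t i with a | ⟨p, c⟩
  · rfl
  · have : p ∈ posT t := (mem_posT t p).2 ⟨i, c, hti⟩
    simp [this]

end Pool.H22.VN
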