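import Pool.Agent.H22.VN.Real
import Pool.Agent.H22.VC.SplitApi
import Pool.Agent.H22.VC.Decode

/-!
# Systems of cells inside a nice structure
-/

set_option autoImplicit false

namespace Pool.H22.VN

open Filter Function Pool.H22.VC

variable {r : ℕ} {K α ι : Type}

/-- Finitely many functions are told apart by a finite set of parameters. -/
theorem exists_sepSet (S : Set ((Fin r → α) → K)) (hS : S.Finite) :
    ∃ A : Set α, A.Finite ∧ ∀ g ∈ S, ∀ g' ∈ S,
      (∀ a : Fin r → α, (∀ i, a i ∈ A) → g a = g' a) → g = g' := by
  classical
  let X : ((Fin r → α) → K) × ((Fin r → α) → K) → Set α := fun q =>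
    if h : ∃ a, q.1 a ≠ q.2 a then Set.range h.choose else ∅
  refine ⟨⋃ q ∈ S ×ˢ S, X q, (hS.prod hS).biUnion (fun q _ => ?_), ?_⟩
  · by_cases h : ∃ a, q.1 a ≠ q.2 a
    · simp only [X, dif_pos h]
      exact Set.finite_range _
    · simp only [X, dif_neg h]
      exact Set.finite_empty
  · intro g hg g' hg' h
    by_contra hne
    have hex : ∃ a, g a ≠ g' a := by
      by_contra hc
      push Not at hc
      exact hne (funext hc)
    apply hex.choose_spec
    apply h
    intro i
    refine Set.mem_biUnion (x := (g, g')) ⟨hg, hg'⟩ ?_
    have hX : X (g, g') = Set.range hex.choose := dif_pos hex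
    rw [hX]
    exact ⟨i, rfl⟩

/-- The system of cells inside `M`. -/
theorem exists_csys [Nonempty α] {M : Col r K α} (hN : Nice M) (V : ℕ → Ultrafilter (ι → α))
    (I : ℕ → Set ι) (hI : ∀ q, (I q).Finite) (hg : ∀ q, GoodOn (V q) (I q))
    (hF : (FamT M (fun p : ℕ => V p.unpair.1) (fun p => I p.unpair.1)).Finite) :
    ∃ C : CSys r K α ℕ ι, C.N = M ∧ C.A.Finite ∧ (∀ p, C.κ p = p.unpair.1) ∧ C.I = I ∧
      (∀ t : Fin r → α ⊕ (ℕ × ι), (∀ i a, t i = Sum.inl a → a ∈ C.A) →
        (∀ i p c, t i = Sum.inr (p, c) → c ∈ I p.unpair.1) →
        M (ev C.el ∘ t) = Gen M (fun p : ℕ => V p.unpair.1) t) ∧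
      (∀ g ∈ FamT M (fun p : ℕ => V p.unpair.1) (fun p => I p.unpair.1),
        ∀ g' ∈ FamT M (fun p : ℕ => V p.unpair.1) (fun p => I p.unpair.1),
        (∀ a : Fin r → α, (∀ i, a i ∈ C.A) → g a = g' a) → g = g') := by
  classical
  set W : ℕ → Ultrafilter (ι → α) := fun p => V p.unpair.1 with hW
  set J : ℕ → Set ι := fun p => I p.unpair.1 with hJ
  have hgW : ∀ p, GoodOn (W p) (J p) := fun p => hg _
  obtain ⟨A, hA, hsep⟩ := exists_sepSet _ hF
  obtain ⟨e, hinj, hnotA, hval⟩ := exists_real hN.1 W J (fun p => hI _) hgW hF A hA
  refine ⟨{
    N := M
    A := A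
    el := e
    κ := fun p => p.unpair.1
    I := I
    inj := ?_
    notA := ?_
    inf := ?_
    move := ?_
    sep := ?_ }, rfl, hA, fun _ => rfl, rfl, hval, hsep⟩
  · intro p p' c c' hc hc' h
    exact hinj p p' c c' hc hc' h
  · intro p c hc
    exact hnotA p c hc
  · intro q
    refine Set.infinite_of_injective_forall_mem (f := fun k : ℕ => Nat.pair q k) ?_ ?_
    · intro k k' h
      have := congrArg Nat.unpair h
      simpa using this
    · intro k
      simp
  · intro T φ hTA hT hφ
    have e1 : (fun i => Sum.elim id (fun pc : ℕ × ι => e (φ pc.1) pc.2) (T i)) =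
        ev e ∘ (Sum.map id (Prod.map φ id) ∘ T) := by
      funext i
      simp only [Function.comp]
      rcases T i with a | ⟨p, c⟩ <;> rfl
    have e2 : (fun i => Sum.elim id (fun pc : ℕ × ι => e pc.1 pc.2) (T i)) = ev e ∘ T := by
      funext i
      simp only [Function.comp]
      rcases T i with a | ⟨p, c⟩ <;> rfl
    rw [e1, e2, hval T hTA (fun i p c h => (hT i p c h).1)]
    rw [hval]
    · refine gen_perm hN W W J hgW φ T ?_ ?_ ?_
      · intro i p c hi
        exact (hT i p c hi).1
      · intro p hp p' hp' hpp
        obtain ⟨i, c, hi⟩ := (mem_posT T p).1 hp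
        obtain ⟨j, c', hj⟩ := (mem_posT T p').1 hp'
        exact hφ i j p c p' c' hi hj hpp
      · intro p hp
        obtain ⟨i, c, hi⟩ := (mem_posT T p).1 hp
        have := (hT i p c hi).2
        show V (φ p).unpair.1 = V p.unpair.1
        rw [this]
    · intro i a hi
      simp only [Function.comp] at hi
      rcases hTi : T i with b | ⟨p, c⟩
      · rw [hTi] at hi
        have : b = a := Sum.inl.inj hi
        rw [← this]
        exact hTA i b hTi
      · rw [hTi] at hi
        simp at hi
    · intro i p c hi
      simp only [Function.comp] at hi
      rcases hTi : T i with b | ⟨p', c'⟩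
      · rw [hTi] at hi
        simp at hi
      · rw [hTi] at hi
        have h1 := Prod.mk.inj (Sum.inr.inj hi)
        have h2 := hT i p' c' hTi
        rw [← h1.1, ← h1.2]
        show c' ∈ I (φ p').unpair.1
        rw [h2.2]
        exact h2.1
  · intro n _ z z' hz hz' hzI hzI' hs T hTA hT
    obtain ⟨Z, hZg, hZ⟩ := gen_joint hN.1 W J hgW z hz hzI
    obtain ⟨Z', hZg', hZ'⟩ := gen_joint hN.1 W J hgW z' hz' hzI'
    have hmemF : ∀ (z : Fin n → ℕ × ι), (∀ j, (z j).2 ∈ J (z j).1) →
        ∀ t : Fin r → α ⊕ Fin n,
        (fun a => Gen M W (fil (fun i => Sum.elim (fun _ => none) (fun j => some (z j)) (t i)) a))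
          ∈ FamT M W J := by
      intro z hzI t
      refine ⟨_, ?_, rfl⟩
      intro i p c hi
      rcases hti : t i with a | j
      · rw [hti] at hi
        simp at hi
      · rw [hti] at hi
        have h1 : z j = (p, c) := Option.some.inj hi
        have h2 := hzI j
        rw [h1] at h2
        exact h2
    have hfil : ∀ (z : Fin n → ℕ × ι) (t : Fin r → α ⊕ Fin n) (a : Fin r → α),
        fil (fun i => Sum.elim (fun _ => none) (fun j => some (z j)) (t i)) a =
          Sum.map id z ∘ (fun i => Sum.elim (fun _ => Sum.inl (a i)) Sum.inr (t i)) := by
      intro z t a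
      funext i
      simp only [fil, Function.comp]
      rcases t i with b | j <;> rfl
    -- the two laws have the same limit type
    have hsame : ∀ t : Fin r → α ⊕ Fin n, LT M Z t = LT M Z' t := by
      intro t
      have h1 := hsep _ (hmemF z hzI t) _ (hmemF z' hzI' t) (by
        intro a ha
        have h2 := hs (fun i => Sum.elim (fun _ => Sum.inl (a i)) Sum.inr (t i)) (by
          intro i b hi
          rcases hti : t i with a' | j
          · rw [hti] at hi
            rw [← Sum.inl.inj hi]
            exact ha i
          · rw [hti] at hi
            simp at hi)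
        have hv : ∀ z : Fin n → ℕ × ι, (∀ j, (z j).2 ∈ J (z j).1) →
            M (fun i => Sum.elim id (fun j => e (z j).1 (z j).2)
              (Sum.elim (fun _ => Sum.inl (a i)) Sum.inr (t i) : α ⊕ Fin n)) =
            Gen M W (fil (fun i => Sum.elim (fun _ => none) (fun j => some (z j)) (t i)) a) := by
          intro z hzI
          rw [hfil, ← hval]
          · congr 1
            funext i
            simp only [Function.comp]
            rcases t i with b | j <;> rfl
          · intro i b hi
            simp only [Function.comp] at hi
            rcases hti : t i with a' | j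
            · rw [hti] at hi
              have : a i = b := Sum.inl.inj hi
              rw [← this]
              exact ha i
            · rw [hti] at hi
              simp at hi
          · intro i p c hi
            simp only [Function.comp] at hi
            rcases hti : t i with a' | j
            · rw [hti] at hi
              simp at hi
            · rw [hti] at hi
              have h1 : z j = (p, c) := Sum.inr.inj hi
              have h2 := hzI j
              rw [h1] at h2
              exact h2
        rw [← hv z hzI, ← hv z' hzI']
        exact h2)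
      obtain ⟨a₀⟩ := ‹Nonempty α›
      have h2 := congrFun h1 (fun i => Sum.elim id (fun _ => a₀) (t i))
      have h3 : (fun i => Sum.elim (fun _ => Sum.inl (Sum.elim id (fun _ => a₀) (t i)))
          Sum.inr (t i)) = t := by
        funext i
        rcases t i with b | j <;> rfl
      simp only [hfil, h3] at h2
      rw [← hZ, ← hZ']
      exact h2
    have e3 : ∀ z : Fin n → ℕ × ι,
        (fun i => Sum.elim id (Sum.elim (fun pc : ℕ × ι => e pc.1 pc.2)
          (fun j => e (z j).1 (z j).2)) (T i)) =
        ev e ∘ (fun i => Sum.elim Sum.inl (Sum.elim Sum.inr (fun j => Sum.inr (z j))) (T i)) := by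
      intro z
      funext i
      simp only [Function.comp]
      rcases T i with a | (pc | j) <;> rfl
    let Q : Finset ℕ := Finset.univ.biUnion (fun i => Sum.elim (fun _ => ∅)
      (Sum.elim (fun pc => {pc.1}) (fun _ => ∅)) (T i))
    have hQ : ∀ p, p ∈ Q ↔ ∃ i c, T i = Sum.inr (Sum.inl (p, c)) := by
      intro p
      simp only [Q, Finset.mem_biUnion, Finset.mem_univ, true_and]
      refine exists_congr (fun i => ?_)
      rcases T i with a | ⟨p', c'⟩ | j
      · simp
      · simp [eq_comm]
      · simp
    have e4 := gen_eq_joint hN W J hgW z hzI Z hZ T (by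
        intro i p c hi
        have := hT i p c hi
        exact ⟨this.1, this.2.1⟩) Q (fun i p c hi => (hQ p).2 ⟨i, c, hi⟩) (by
        intro j hj
        obtain ⟨i, c, hi⟩ := (hQ _).1 hj
        exact (hT i _ c hi).2.1 j rfl) (fun p => upt (W p))
    have e5 := gen_eq_joint hN W J hgW z' hzI' Z' hZ' T (by
        intro i p c hi
        have := hT i p c hi
        exact ⟨this.1, this.2.2⟩) Q (fun i p c hi => (hQ p).2 ⟨i, c, hi⟩) (by
        intro j hj
        obtain ⟨i, c, hi⟩ := (hQ _).1 hj
        exact (hT i _ c hi).2.2 j rfl) (fun p => upt (W p))
    have hv : ∀ z : Fin n → ℕ × ι, (∀ j, (z j).2 ∈ J (z j).1) →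
        M (fun i => Sum.elim id (Sum.elim (fun pc : ℕ × ι => e pc.1 pc.2)
          (fun j => e (z j).1 (z j).2)) (T i)) =
        Gen M W (fun i => Sum.elim Sum.inl (Sum.elim Sum.inr (fun j => Sum.inr (z j))) (T i)) := by
      intro z hzI
      rw [e3, hval]
      · intro i b hi
        rcases hTi : T i with a' | (pc | j)
        · rw [hTi] at hi
          have : a' = b := Sum.inl.inj hi
          rw [← this]
          exact hTA i a' hTi
        · rw [hTi] at hi
          simp at hi
        · rw [hTi] at hi
          simp at hi
      · intro i p c hi
        rcases hTi : T i with a' | (pc | j)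
        · rw [hTi] at hi
          simp at hi
        · rw [hTi] at hi
          have h1 : pc = (p, c) := Sum.inr.inj hi
          exact (hT i p c (by rw [hTi, h1])).1
        · rw [hTi] at hi
          have h1 : z j = (p, c) := Sum.inr.inj hi
          have h2 := hzI j
          rw [h1] at h2
          exact h2
    rw [hv z hzI, hv z' hzI', e4, e5]
    simp only [hsame]

/-- A sequence of connected limit types of increasing sizes over a nice structure, with finitely
many template functions, makes the structure wild. -/
theorem wildSys [Countable α] [Nonempty α] {M : Col r K α} (hN : Nice M)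
    (V : ℕ → Ultrafilter (ι → α)) (I : ℕ → Finset ι) (hg : ∀ q, GoodOn (V q) (I q))
    (hF : (FamT M (fun p : ℕ => V p.unpair.1) (fun p => (I p.unpair.1 : Set ι))).Finite)
    (hne : ∀ q, (I q).Nonempty) (hcard : StrictMono (fun q => (I q).card))
    (hconn : ∀ q, ∀ x ∈ I q, ∀ y ∈ I q, Relation.ReflTransGen (fun x y => ∃ S : Finset ι,
      S ⊆ I q ∧ S.card ≤ r ∧ x ∈ S ∧ y ∈ S ∧ Indec M (V q) S) x y) :
    Wild M Set.univ := by
  classical
  obtain ⟨C, hCN, hCA, hCκ, hCI, hval, hsep⟩ := exists_csys hN V (fun q => (I q : Set ι))
    (fun q => (I q).finite_toSet) hg hF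
  have hCI' : ∀ q, C.I q = (I q : Set ι) := fun q => by rw [hCI]
  have hw := wild_of_csys C hCA (fun q => by rw [hCI']; exact Finset.finite_toSet _)
    (fun q => by
      rw [hCI']
      obtain ⟨c, hc⟩ := hne q
      exact ⟨c, Finset.mem_coe.2 hc⟩)
    (by
      intro q q' hqq
      simp only [hCI', Set.ncard_coe_finset]
      exact hcard hqq)
    (by
      intro q x hx y hy
      rw [hCI'] at hx hy
      refine Relation.ReflTransGen.mono ?_ _ _ (hconn q x (Finset.mem_coe.1 hx) y
        (Finset.mem_coe.1 hy))
      rintro x y ⟨S, hSI, hSr, hxS, hyS, hind⟩
      refine ⟨S, fun c hc => by rw [hCI']; exact hSI hc, hSr, hxS, hyS, ?_⟩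
      intro Q hQ1 hQ2 hD
      refine hind Q hQ1 hQ2 ?_
      -- the splitting, everywhere
      set p : ℕ := Nat.pair q 0 with hp
      set p' : ℕ := Nat.pair q 1 with hp'
      have hpq : p.unpair.1 = q := by rw [hp]; simp
      have hpq' : p'.unpair.1 = q := by rw [hp']; simp
      have hpp' : p ≠ p' := by
        intro h
        have := congrArg Nat.unpair h
        rw [hp, hp'] at this
        simp at this
      intro t ht
      let τ : Fin r → Option (ℕ × ι) := fun i =>
        Sum.elim (fun _ => none) (fun c => some (p, c)) (t i)
      let τ' : Fin r → Option (ℕ × ι) := fun i =>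
        Sum.elim (fun _ => none) (fun c => some (if c ∈ Q then p else p', c)) (t i)
      have hfil : ∀ a : Fin r → α, fil τ a = Sum.map id (fun c => (p, c)) ∘
          (fun i => Sum.elim (fun _ => Sum.inl (a i)) Sum.inr (t i)) := by
        intro a
        funext i
        simp only [fil, τ, Function.comp]
        rcases t i with b | c <;> rfl
      have hfil' : ∀ a : Fin r → α, fil τ' a =
          Sum.map id (Sum.elim (fun c => (p, c)) (fun c => (p', c))) ∘
          sp_tt Q (fun i => Sum.elim (fun _ => Sum.inl (a i)) Sum.inr (t i)) := by
        intro a
        funext i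
        simp only [fil, τ', Function.comp, sp_tt]
        rcases t i with b | c
        · rfl
        · by_cases hc : c ∈ Q <;> simp [hc]
      have h1 := hsep (fun a => Gen M _ (fil τ a)) ⟨τ, by
          intro i q' c hi
          simp only [τ] at hi
          rcases hti : t i with b | c'
          · rw [hti] at hi
            simp at hi
          · rw [hti] at hi
            have h2 := Prod.mk.inj (Option.some.inj hi)
            rw [← h2.1, ← h2.2]
            show c' ∈ (I p.unpair.1 : Set ι)
            rw [hpq]
            exact hSI (ht i c' hti), rfl⟩
        (fun a => Gen M _ (fil τ' a)) ⟨τ', by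
          intro i q' c hi
          simp only [τ'] at hi
          rcases hti : t i with b | c'
          · rw [hti] at hi
            simp at hi
          · rw [hti] at hi
            have h2 := Prod.mk.inj (Option.some.inj hi)
            have h3 : q'.unpair.1 = q := by
              rw [← h2.1]
              by_cases hc : c' ∈ Q
              · rw [if_pos hc]; exact hpq
              · rw [if_neg hc]; exact hpq'
            rw [← h2.2]
            show c' ∈ (I q'.unpair.1 : Set ι)
            rw [h3]
            exact hSI (ht i c' hti), rfl⟩ (by
          intro a ha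
          have h2 := hD p p' (by rw [hCκ]; exact hpq) (by rw [hCκ]; exact hpq') hpp'
            (fun i => Sum.elim (fun _ => Sum.inl (a i)) Sum.inr (t i)) (by
              intro i b hi
              rcases hti : t i with b' | c'
              · rw [hti] at hi
                rw [← Sum.inl.inj hi]
                exact ha i
              · rw [hti] at hi
                simp at hi) (by
              intro i c hi
              rcases hti : t i with b' | c'
              · rw [hti] at hi
                simp at hi
              · rw [hti] at hi
                rw [← Sum.inr.inj hi]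
                exact ht i c' hti)
          rw [hCN] at h2
          have e1 : M (fun i => Sum.elim id (fun c => C.el p c)
              (Sum.elim (fun _ => Sum.inl (a i)) Sum.inr (t i) : α ⊕ ι)) =
              Gen M (fun p : ℕ => V p.unpair.1) (fil τ a) := by
            rw [← hval]
            · congr 1
              funext i
              simp only [Function.comp, fil, τ]
              rcases t i with b | c <;> rfl
            · intro i b hi
              simp only [fil, τ] at hi
              rcases hti : t i with b' | c'
              · rw [hti] at hi
                have : a i = b := Sum.inl.inj hi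
                rw [← this]
                exact ha i
              · rw [hti] at hi
                simp at hi
            · intro i q' c hi
              simp only [fil, τ] at hi
              rcases hti : t i with b | c'
              · rw [hti] at hi
                simp at hi
              · rw [hti] at hi
                have h2 := Prod.mk.inj (Sum.inr.inj hi)
                rw [← h2.1, ← h2.2, hpq]
                exact hSI (ht i c' hti)
          have e2 : M (fun i => Sum.elim id (fun c => if c ∈ Q then C.el p c else C.el p' c)
              (Sum.elim (fun _ => Sum.inl (a i)) Sum.inr (t i) : α ⊕ ι)) =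
              Gen M (fun p : ℕ => V p.unpair.1) (fil τ' a) := by
            rw [← hval]
            · congr 1
              funext i
              simp only [Function.comp, fil, τ']
              rcases t i with b | c
              · rfl
              · by_cases hc : c ∈ Q <;> simp [hc, ev]
            · intro i b hi
              simp only [fil, τ'] at hi
              rcases hti : t i with b' | c'
              · rw [hti] at hi
                have : a i = b := Sum.inl.inj hi
                rw [← this]
                exact ha i
              · rw [hti] at hi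
                simp at hi
            · intro i q' c hi
              simp only [fil, τ'] at hi
              rcases hti : t i with b | c'
              · rw [hti] at hi
                simp at hi
              · rw [hti] at hi
                have h2 := Prod.mk.inj (Sum.inr.inj hi)
                have h3 : q'.unpair.1 = q := by
                  rw [← h2.1]
                  by_cases hc : c' ∈ Q
                  · rw [if_pos hc]; exact hpq
                  · rw [if_neg hc]; exact hpq'
                rw [← h2.2, h3]
                exact hSI (ht i c' hti)
          rw [← e1, ← e2]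
          exact h2)
      obtain ⟨a₀⟩ := ‹Nonempty α›
      have h2 := congrFun h1 (fun i => Sum.elim id (fun _ => a₀) (t i))
      have h3 : (fun i => Sum.elim (fun _ => Sum.inl (Sum.elim id (fun _ => a₀) (t i)))
          Sum.inr (t i)) = t := by
        funext i
        rcases t i with b | j <;> rfl
      simp only [hfil, hfil', h3] at h2
      rw [gen_single, gen_two hN (fun p : ℕ => V p.unpair.1) (fun p => (I p.unpair.1 : Set ι))
        (fun p => hg _) (sp_tt Q t) p p' hpp'
        (sp_tt_inl (I := (I p.unpair.1 : Set ι)) (fun i c hic => by
          rw [hpq]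
          exact hSI (ht i c hic)))
        (sp_tt_inr (I := (I p'.unpair.1 : Set ι)) (fun i c hic => by
          rw [hpq']
          exact hSI (ht i c hic)))] at h2
      rw [hpq, hpq', ← sp_lt2] at h2
      exact h2)
  rw [hCN] at hw
  obtain ⟨A, Ω, h1, -, h3, h4, h5⟩ := hw
  exact ⟨A, Ω, h1, fun s => Set.subset_univ _, h3, h4, h5⟩

end Pool.H22.VN
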