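import Pool.Agent.H22.VN.Ren
import Pool.Agent.H22.VN.Sys
import Pool.Agent.H22.VC.StepB1

/-!
# Stars: a centre and independent leaves
-/

set_option autoImplicit false

namespace Pool.H22.VN

open Filter Function Pool.H22.VC

variable {r n : ℕ} {K α : Type}

/-- The star ultrafilter: the centre is `b k`, the leaves have the law `V k` (`k` of them). -/
noncomputable def starU (V : ℕ → Ultrafilter (Fin n → α)) (b : ℕ → Fin r → α) :
    Ultrafilter (SI r n → α) :=
  Ultrafilter.bind (hyperfilter ℕ) (fun k =>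
    (samp (fun _ : ℕ => V k) (List.range k) (fun _ => upt (V k))).map
      (fun y => Sum.elim (b k) (fun jc : ℕ × Fin n => y jc.1 jc.2)))

/-- an element over the star number `k` -/
def skE (b : ℕ → Fin r → α) (k : ℕ) : α ⊕ SI r n → α ⊕ (ℕ × Fin n) :=
  Sum.elim Sum.inl (Sum.elim (fun a => Sum.inl (b k a)) Sum.inr)

theorem skE_ev (b : ℕ → Fin r → α) (k : ℕ) (y : ℕ → Fin n → α) (u : α ⊕ SI r n) :
    Sum.elim id (Sum.elim (b k) (fun jc : ℕ × Fin n => y jc.1 jc.2)) u = ev y (skE b k u) := by
  rcases u with a | a | jc <;> rfl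

theorem evl_gt (m : ℕ) : ∀ᶠ k in (hyperfilter ℕ : Filter ℕ), m < k := by
  have : ({l | m < l} : Set ℕ) ∈ hyperfilter ℕ := by
    have h1 : ({l | m < l} : Set ℕ) = (Set.Iic m)ᶜ := by
      ext l
      simp
    rw [h1]
    exact (Set.finite_Iic m).compl_mem_hyperfilter
  exact this

/-- finitely many leaves are sampled almost surely -/
theorem exists_leaf_bound (s : Fin r → α ⊕ SI r n) :
    ∃ m : ℕ, ∀ i j c, s i = Sum.inr (Sum.inr (j, c)) → j < m := by
  classical
  refine ⟨(Finset.univ.sup (fun i => Sum.elim (fun _ => 0)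
    (Sum.elim (fun _ => 0) (fun jc : ℕ × Fin n => jc.1)) (s i))) + 1, ?_⟩
  intro i j c hi
  have := Finset.le_sup (f := fun i => Sum.elim (fun _ => 0)
    (Sum.elim (fun _ => 0) (fun jc : ℕ × Fin n => jc.1)) (s i)) (Finset.mem_univ i)
  simp only [hi, Sum.elim_inr] at this
  exact Nat.lt_succ_of_le this

theorem lt_star {M : Col r K α} (hfin : (Set.range M).Finite) (V : ℕ → Ultrafilter (Fin n → α))
    (b : ℕ → Fin r → α) (s : Fin r → α ⊕ SI r n) :
    LT M (starU V b) s =
      ulim (hyperfilter ℕ) (fun k => Gen M (fun _ : ℕ => V k) (skE b k ∘ s)) := by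
  classical
  unfold VC.LT starU
  rw [ulim_bind hfin (fun x => ⟨_, rfl⟩)]
  obtain ⟨m, hm⟩ := exists_leaf_bound s
  refine ulim_congr hfin (fun k => ulim_mem hfin (fun x => ⟨_, rfl⟩)) ?_
  refine (evl_gt m).mono (fun k hk => ?_)
  rw [ulim_map hfin (fun x => ⟨_, rfl⟩), gen_eq_itl M _ (skE b k ∘ s) (List.range k)
    List.pairwise_lt_range (by
      intro p hp
      obtain ⟨i, c, hi⟩ := (mem_posT _ p).1 hp
      rw [List.mem_range]
      simp only [Function.comp] at hi
      rcases hsi : s i with a | a | ⟨j, c'⟩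
      · rw [hsi] at hi
        simp [skE] at hi
      · rw [hsi] at hi
        simp [skE] at hi
      · rw [hsi] at hi
        have h1 := Prod.mk.inj (Sum.inr.inj hi)
        rw [← h1.1]
        exact (hm i j c' hsi).trans hk) (fun _ => upt (V k)),
    itl_eq_samp _ hfin _ _ (fun e => ⟨_, rfl⟩)]
  congr 1
  funext y
  congr 1
  funext i
  simp only [Function.comp]
  exact skE_ev b k y (s i)

theorem star_ne (V : ℕ → Ultrafilter (Fin n → α)) (b : ℕ → Fin r → α)
    (hg : ∀ k, GoodOn (V k) Set.univ) (u v : α ⊕ SI r n)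
    (h : ∀ᶠ k in (hyperfilter ℕ : Filter ℕ), skE b k u ≠ skE b k v) :
    ∀ᶠ x in (starU V b : Filter (SI r n → α)), Sum.elim id x u ≠ Sum.elim id x v := by
  classical
  have hbound : ∀ w : α ⊕ SI r n, ∃ m : ℕ, ∀ k p c, skE b k w = Sum.inr (p, c) → p < m := by
    intro w
    rcases w with a | a | ⟨j, c⟩
    · exact ⟨0, fun k p c h => by simp [skE] at h⟩
    · exact ⟨0, fun k p c h => by simp [skE] at h⟩
    · refine ⟨j + 1, fun k p c' h => ?_⟩
      have h1 := Prod.mk.inj (Sum.inr.inj h)
      rw [← h1.1]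
      exact Nat.lt_succ_self j
  obtain ⟨m, hm⟩ := hbound u
  obtain ⟨m', hm'⟩ := hbound v
  have key : ∀ᶠ k in (hyperfilter ℕ : Filter ℕ), ∀ᶠ x in
      ((((samp (fun _ : ℕ => V k) (List.range k) (fun _ => upt (V k))).map
      (fun y => Sum.elim (b k) (fun jc : ℕ × Fin n => y jc.1 jc.2))) :
        Ultrafilter (SI r n → α)) : Filter (SI r n → α)),
      Sum.elim id x u ≠ Sum.elim id x v := by
    refine ((h.and (evl_gt m)).and (evl_gt m')).mono (fun k hk => ?_)
    rw [Ultrafilter.coe_map, Filter.eventually_map, ← evl_iff_samp]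
    have h1 := evl_ne (W := fun _ : ℕ => V k) (I := fun _ => Set.univ) (fun _ => hg k)
      (List.range k) List.pairwise_lt_range (skE b k u) (skE b k v)
      (fun p c _ => Set.mem_univ _) (fun p c _ => Set.mem_univ _)
      (fun p c h => List.mem_range.2 ((hm k p c h).trans hk.1.2))
      (fun p c h => List.mem_range.2 ((hm' k p c h).trans hk.2)) hk.1.1 (fun _ => upt (V k))
    refine evl_mono _ _ ?_ _ h1
    intro y hy
    rw [skE_ev, skE_ev]
    exact hy
  exact key

theorem star_good (V : ℕ → Ultrafilter (Fin n → α)) (b : ℕ → Fin r → α)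
    (hg : ∀ k, GoodOn (V k) Set.univ) : GoodOn (starU V b) (IB b : Set (SI r n)) := by
  constructor
  · intro c hc x
    have h1 := star_ne V b hg (Sum.inr c) (Sum.inl x) (by
      rcases c with a | jc
      · refine (not_isC (hc a rfl).1 x).mono (fun k hk => ?_)
        intro h
        exact hk (Sum.inl.inj h)
      · refine Eventually.of_forall (fun k h => ?_)
        simp [skE] at h)
    exact h1
  · intro c hc c' hc' hne
    have h1 := star_ne V b hg (Sum.inr c) (Sum.inr c') (by
      rcases c with a | jc <;> rcases c' with a' | jc'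
      · have hne' : ∀ᶠ k in (hyperfilter ℕ : Filter ℕ), ¬ (b k a = b k a') := by
          rw [Ultrafilter.eventually_not]
          intro h
          have := repS_eq b h
          rw [(hc a rfl).2, (hc' a' rfl).2] at this
          exact hne (by rw [this])
        refine hne'.mono (fun k hk => ?_)
        intro h
        exact hk (Sum.inl.inj h)
      · refine Eventually.of_forall (fun k h => ?_)
        simp [skE] at h
      · refine Eventually.of_forall (fun k h => ?_)
        simp [skE] at h
      · refine Eventually.of_forall (fun k h => ?_)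
        have : jc = jc' := Sum.inr.inj h
        exact hne (by rw [this]))
    exact h1

/-- renaming of the leaves -/
def lfR (ψ : ℕ → ℕ) : SI r n → SI r n := Sum.map id (Prod.map ψ id)

/-- the limit type of a star does not depend on the names of the leaves -/
theorem lt_star_ren {M : Col r K α} (hN : Nice M) (V : ℕ → Ultrafilter (Fin n → α))
    (b : ℕ → Fin r → α) (hg : ∀ k, GoodOn (V k) Set.univ) (ψ : ℕ → ℕ)
    (s : Fin r → α ⊕ SI r n)
    (hψ : ∀ i j c i' j' c', s i = Sum.inr (Sum.inr (j, c)) → s i' = Sum.inr (Sum.inr (j', c')) →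
      ψ j = ψ j' → j = j') :
    LT M (starU V b) (Sum.map id (lfR ψ) ∘ s) = LT M (starU V b) s := by
  rw [lt_star hN.1, lt_star hN.1]
  congr 1
  funext k
  have e1 : skE b k ∘ (Sum.map id (lfR ψ) ∘ s) = Sum.map id (Prod.map ψ id) ∘ (skE b k ∘ s) := by
    funext i
    simp only [Function.comp]
    rcases s i with a | a | ⟨j, c⟩ <;> rfl
  have hpos : ∀ q, q ∈ posT (skE b k ∘ s) → ∃ i c, s i = Sum.inr (Sum.inr (q, c)) := by
    intro q hq
    obtain ⟨i, c, hi⟩ := (mem_posT _ q).1 hq
    simp only [Function.comp] at hi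
    rcases hsi : s i with a | a | ⟨j, c'⟩
    · rw [hsi] at hi
      simp [skE] at hi
    · rw [hsi] at hi
      simp [skE] at hi
    · rw [hsi] at hi
      have h1 := Prod.mk.inj (Sum.inr.inj hi)
      exact ⟨i, c', by rw [hsi, h1.1]⟩
  rw [e1]
  refine gen_perm hN (fun _ : ℕ => V k) (fun _ : ℕ => V k) (fun _ => Set.univ) (fun _ => hg k) ψ
    (skE b k ∘ s) (fun i p c _ => Set.mem_univ _) ?_ (fun _ _ => rfl)
  intro q hq q' hq' hqq
  obtain ⟨i, c, hi⟩ := hpos q hq
  obtain ⟨i', c', hi'⟩ := hpos q' hq'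
  exact hψ i q c i' q' c' hi hi' hqq

/-- ranking function of a finite set -/
def rk (F : Finset ℕ) (p : ℕ) : ℕ := (F.filter (· < p)).card

theorem rk_lt (F : Finset ℕ) {p p' : ℕ} (hp : p ∈ F) (h : p < p') : rk F p < rk F p' := by
  unfold rk
  apply Finset.card_lt_card
  rw [Finset.ssubset_iff_of_subset]
  · exact ⟨p, Finset.mem_filter.2 ⟨hp, h⟩, by simp⟩
  · intro q hq
    rw [Finset.mem_filter] at hq ⊢
    exact ⟨hq.1, hq.2.trans h⟩

theorem rk_inj (F : Finset ℕ) {p p' : ℕ} (hp : p ∈ F) (hp' : p' ∈ F) (h : rk F p = rk F p') :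
    p = p' := by
  rcases lt_trichotomy p p' with h1 | h1 | h1
  · exact absurd h (rk_lt F hp h1).ne
  · exact h1
  · exact absurd h.symm (rk_lt F hp' h1).ne

theorem rk_card (F : Finset ℕ) {p : ℕ} (hp : p ∈ F) : rk F p < F.card := by
  unfold rk
  apply Finset.card_lt_card
  rw [Finset.ssubset_iff_of_subset (Finset.filter_subset _ _)]
  exact ⟨p, hp, by simp⟩

/-- leaves used at the position `p` -/
noncomputable def leafT (t : Fin r → α ⊕ (ℕ × SI r n)) (p : ℕ) : Finset ℕ := by
  classical
  exact Finset.univ.biUnion (fun i => Sum.elim (fun _ => (∅ : Finset ℕ))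
    (fun pc => if pc.1 = p then Sum.elim (fun _ => ∅) (fun jc : ℕ × Fin n => {jc.1}) pc.2
      else ∅) (t i))

theorem mem_leafT (t : Fin r → α ⊕ (ℕ × SI r n)) (p j : ℕ) :
    j ∈ leafT t p ↔ ∃ i c, t i = Sum.inr (p, Sum.inr (j, c)) := by
  classical
  unfold leafT
  simp only [Finset.mem_biUnion, Finset.mem_univ, true_and]
  refine exists_congr (fun i => ?_)
  rcases t i with a | ⟨p', a | ⟨j', c⟩⟩
  · simp
  · by_cases h : p' = p <;> simp [h]
  · by_cases h : p' = p
    · simp [h, eq_comm]
    · simp [h]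

theorem leafT_card (t : Fin r → α ⊕ (ℕ × SI r n)) (p : ℕ) : (leafT t p).card ≤ r := by
  classical
  unfold leafT
  refine Finset.card_biUnion_le.trans ?_
  calc _ ≤ ∑ _i : Fin r, 1 := by
        refine Finset.sum_le_sum (fun i _ => ?_)
        rcases t i with a | ⟨p', a | ⟨j', c⟩⟩
        · simp
        · by_cases h : p' = p <;> simp [h]
        · by_cases h : p' = p <;> simp [h]
    _ = r := by simp

/-- the finiteness condition for stars -/
theorem famT_star {M : Col r K α} (hN : Nice M) (V : ℕ → Ultrafilter (Fin n → α))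
    (b : ℕ → Fin r → α) (hg : ∀ k, GoodOn (V k) Set.univ) :
    (FamT M (fun _ : ℕ => starU V b) (fun _ => (IB b : Set (SI r n)))).Finite := by
  classical
  -- the finite set of normal templates
  let B : Set (Option (ℕ × SI r n)) := {u | ∀ p c, u = some (p, c) → p < r ∧
    ∀ j c', c = Sum.inr (j, c') → j < r}
  have hB : B.Finite := by
    have h1 : B ⊆ insert none (some '' ((Set.Iio r) ×ˢ
        (Set.range (Sum.inl : Fin r → SI r n) ∪ Sum.inr '' ((Set.Iio r) ×ˢ Set.univ)))) := by
      rintro (_ | ⟨p, c⟩) hu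
      · exact Set.mem_insert _ _
      · refine Set.mem_insert_of_mem _ ⟨(p, c), ⟨(hu p c rfl).1, ?_⟩, rfl⟩
        rcases c with a | ⟨j, c⟩
        · exact Or.inl ⟨a, rfl⟩
        · exact Or.inr ⟨(j, c), ⟨(hu p _ rfl).2 j c rfl, Set.mem_univ _⟩, rfl⟩
    refine Set.Finite.subset (Set.Finite.insert _ (Set.Finite.image _ (Set.Finite.prod
      (Set.finite_Iio r) (Set.Finite.union (Set.finite_range _) (Set.Finite.image _
        (Set.Finite.prod (Set.finite_Iio r) Set.finite_univ)))))) h1
  have hT : (Set.pi Set.univ (fun _ : Fin r => B)).Finite := Set.Finite.pi (fun _ => hB)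
  refine (hT.image (fun t => fun a => Gen M (fun _ : ℕ => starU V b) (fil t a))).subset ?_
  rintro g ⟨t, ht, rfl⟩
  -- the position and leaf renamings of the template
  by_cases hα : Nonempty α
  swap
  · -- no parameters
    rcases Nat.eq_zero_or_pos r with hr | hr
    · refine ⟨fun _ => none, fun i _ p c h => by simp at h, ?_⟩
      funext a
      congr 1
      funext i
      exact absurd i.2 (by omega)
    · refine ⟨fun _ => none, fun i _ p c h => by simp at h, ?_⟩
      funext a
      exact absurd ⟨a ⟨0, hr⟩⟩ hα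
  obtain ⟨a₀⟩ := hα
  set u : Fin r → α ⊕ (ℕ × SI r n) := fil t (fun _ => a₀) with hu
  have hut : ∀ i pc, u i = Sum.inr pc ↔ t i = some pc := by
    intro i pc
    simp only [hu, fil]
    rcases t i with _ | pc' <;> simp
  let ψ : ℕ → ℕ → ℕ := fun p => rk (leafT u p)
  let φ : ℕ → ℕ := rk (posT u)
  let t' : Fin r → Option (ℕ × SI r n) := fun i =>
    (t i).map (fun pc => (φ pc.1, lfR (ψ pc.1) pc.2))
  refine ⟨t', ?_, ?_⟩
  · intro i _ p c hi
    simp only [t'] at hi
    rcases hti : t i with _ | ⟨p', c'⟩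
    · rw [hti] at hi
      simp at hi
    · rw [hti] at hi
      have h1 := Prod.mk.inj (Option.some.inj hi)
      have h2 : u i = Sum.inr (p', c') := (hut i _).2 hti
      constructor
      · rw [← h1.1]
        exact (rk_card (posT u) ((mem_posT u p').2 ⟨i, c', h2⟩)).trans_le (posT_card_le u)
      · intro j c'' hc
        rw [← h1.2] at hc
        rcases c' with a | ⟨j', d⟩
        · simp [lfR] at hc
        · have h3 := Prod.mk.inj (Sum.inr.inj hc)
          have h4 : ψ p' j' = j := h3.1
          rw [← h4]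
          exact (rk_card (leafT u p') ((mem_leafT u p' j').2 ⟨i, d, h2⟩)).trans_le
            (leafT_card u p')
  · funext a
    set v : Fin r → α ⊕ (ℕ × SI r n) := fil t a with hv
    have hvt : ∀ i pc, v i = Sum.inr pc ↔ t i = some pc := by
      intro i pc
      simp only [hv, fil]
      rcases t i with _ | pc' <;> simp
    have hvu : ∀ i pc, v i = Sum.inr pc ↔ u i = Sum.inr pc := fun i pc =>
      (hvt i pc).trans (hut i pc).symm
    have hvI : ∀ p c, c ∈ partT v p → c ∈ (IB b : Set (SI r n)) := by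
      intro p c hc
      obtain ⟨i, hi⟩ := (mem_partT v p c).1 hc
      exact ht i p c ((hvt i _).1 hi)
    have hpI : ∀ p c, c ∈ (fun c => lfR (ψ p) c) '' (partT v p : Set (SI r n)) →
        c ∈ (IB b : Set (SI r n)) := by
      rintro p c ⟨c', hc', rfl⟩ a hca
      rcases c' with a' | ⟨j, d⟩
      · exact hvI p _ hc' a hca
      · simp [lfR] at hca
    have e1 := gen_ren hN (fun _ : ℕ => starU V b) v (fun p => lfR (ψ p))
      (fun p => (star_good V b hg).mono (fun c hc => hvI p c hc))
      (fun p => (star_good V b hg).mono (fun c hc => hpI p c hc)) (by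
        intro p s hs
        refine lt_star_ren hN V b hg (ψ p) s ?_
        intro i j c i' j' c' hi hi' hjj
        have hl : ∀ i j c, s i = Sum.inr (Sum.inr (j, c)) → j ∈ leafT u p := by
          intro i j c hi
          obtain ⟨i₁, hi₁⟩ := (mem_partT v p _).1 (hs i _ hi)
          exact (mem_leafT u p j).2 ⟨i₁, c, (hvu i₁ _).1 hi₁⟩
        exact rk_inj (leafT u p) (hl i j c hi) (hl i' j' c' hi') hjj)
    have e2 := gen_perm hN (fun _ : ℕ => starU V b) (fun _ : ℕ => starU V b)
      (fun _ => (IB b : Set (SI r n))) (fun _ => star_good V b hg) φ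
      (Sum.map id (fun pc : ℕ × SI r n => (pc.1, lfR (ψ pc.1) pc.2)) ∘ v) (by
        intro i p c hi
        simp only [Function.comp] at hi
        rcases hvi : v i with x | ⟨p', c'⟩
        · rw [hvi] at hi
          simp at hi
        · rw [hvi] at hi
          have h1 := Prod.mk.inj (Sum.inr.inj hi)
          show c ∈ IB b
          rw [← h1.2]
          exact hpI p' _ ⟨c', (mem_partT v p' c').2 ⟨i, hvi⟩, rfl⟩) (by
        have hp1 : ∀ p, p ∈ posT (Sum.map id (fun pc : ℕ × SI r n =>
            (pc.1, lfR (ψ pc.1) pc.2)) ∘ v) → p ∈ posT u := by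
          intro p hp
          obtain ⟨i, c, hi⟩ := (mem_posT _ p).1 hp
          simp only [Function.comp] at hi
          rcases hvi : v i with x | ⟨p', c'⟩
          · rw [hvi] at hi
            simp at hi
          · rw [hvi] at hi
            have h1 := Prod.mk.inj (Sum.inr.inj hi)
            rw [← h1.1]
            exact (mem_posT u p').2 ⟨i, c', (hvu i _).1 hvi⟩
        intro p hp p' hp' hpp
        exact rk_inj (posT u) (hp1 p hp) (hp1 p' hp') hpp) (fun _ _ => rfl)
    show Gen M (fun _ : ℕ => starU V b) (fil t' a) = Gen M (fun _ : ℕ => starU V b) v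
    rw [← e1, ← e2]
    congr 1
    funext i
    simp only [fil, t', hv, Function.comp]
    rcases t i with _ | ⟨p, c⟩ <;> rfl

end Pool.H22.VN
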