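import Pool.Agent.H22.VN.Star

/-!
# A separation failure makes a nice structure wild
-/

set_option autoImplicit false

namespace Pool.H22.VN

open Filter Function Pool.H22.VC

variable {r n : ℕ} {K α : Type}

/-- the tuple made of the centre and of the leaf `0` -/
noncomputable def cr0 (b : ℕ → Fin r → α) (σ : Fin r → Option (Fin n)) : Fin r → α ⊕ SI r n :=
  fun i => Sum.elim Sum.inl (Sum.elim (fun a' => Sum.inr (Sum.inl a'))
    (fun c => Sum.inr (Sum.inr (0, c)))) (cenT b σ i)

theorem cr0_lt {M : Col r K α} (hN : Nice M) (V : ℕ → Ultrafilter (Fin n → α))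
    (b : ℕ → Fin r → α) (σ : Fin r → Option (Fin n)) (ε : K)
    (h1 : ∀ k, LT M (V k) (tup σ (b k)) = ε) :
    LT M (starU V b) (cr0 b σ) = ε := by
  rw [lt_star hN.1]
  apply ulim_of_eventually
  refine (cenT_ae b σ).mono (fun k hk => ?_)
  have e2 : skE b k ∘ cr0 b σ = Sum.map id (fun c => (0, c)) ∘ tup σ (b k) := by
    rw [← hk]
    funext a
    simp only [Function.comp, cr0]
    rcases cenT b σ a with y | a' | c' <;> rfl
  rw [e2, gen_single]
  exact h1 k

theorem cr0_lt2 {M : Col r K α} (hN : Nice M) (V : ℕ → Ultrafilter (Fin n → α))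
    (b : ℕ → Fin r → α) (σ : Fin r → Option (Fin n)) (γ : K)
    (h2 : ∀ᶠ k in (hyperfilter ℕ : Filter ℕ), ∀ᶠ l in (hyperfilter ℕ : Filter ℕ),
      LT M (V l) (tup σ (b k)) = γ) :
    LT2 M (starU V b) (Set.range Sum.inl) (cr0 b σ) = γ := by
  classical
  have hr : ∀ s : Fin r → α, M s ∈ Set.range M := fun s => ⟨s, rfl⟩
  -- the inner limit as a function of the centre
  let G : (Fin r → α) → K := fun x => LT M (starU V b) (fun i => Sum.elim Sum.inl
    (Sum.elim (fun a' => Sum.inl (x a')) (fun c => Sum.inr (Sum.inr (0, c)))) (cenT b σ i))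
  have hG : ∀ x : SI r n → α, LT M (starU V b) (sp_tx (Set.range Sum.inl) (cr0 b σ) x) =
      G (fun a => x (Sum.inl a)) := by
    intro x
    simp only [G]
    congr 1
    funext i
    simp only [sp_tx, cr0]
    rcases cenT b σ i with y | a' | c'
    · rfl
    · simp
    · simp
  have hGr : ∀ x, G x ∈ Set.range M := fun x => ulim_mem hN.1 (fun _ => hr _)
  have e1 : LT2 M (starU V b) (Set.range Sum.inl) (cr0 b σ) =
      ulim (starU V b) (fun x => G (fun a => x (Sum.inl a))) := by
    rw [sp_lt2]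
    congr 1
    funext x
    rw [← sp_lt_tx, hG]
  rw [e1]
  have e2 : ulim (starU V b) (fun x : SI r n → α => G (fun a => x (Sum.inl a))) =
      ulim (hyperfilter ℕ) (fun k => G (b k)) := by
    unfold starU
    rw [ulim_bind hN.1 (fun x => hGr _)]
    congr 1
    funext k
    rw [ulim_map hN.1 (fun x => hGr _)]
    have h3 : ∀ x : ℕ → Fin n → α, G (fun a => (Sum.elim (b k)
        (fun jc : ℕ × Fin n => x jc.1 jc.2) : SI r n → α) (Sum.inl a)) = G (b k) := fun x => rfl
    simp only [h3]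
    exact ulim_const _ _
  rw [e2]
  apply ulim_of_eventually
  refine ((cenT_ae b σ).and h2).mono (fun k hk => ?_)
  show LT M (starU V b) _ = γ
  rw [lt_star hN.1]
  apply ulim_of_eventually
  refine hk.2.mono (fun l hl => ?_)
  have e3 : (skE b l ∘ (fun i => Sum.elim Sum.inl
      (Sum.elim (fun a' => Sum.inl (b k a')) (fun c => Sum.inr (Sum.inr (0, c)))) (cenT b σ i)) :
      Fin r → α ⊕ (ℕ × Fin n)) = Sum.map id (fun c => (0, c)) ∘ tup σ (b k) := by
    rw [← hk.1]
    funext a
    simp only [Function.comp]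
    rcases cenT b σ a with y | a' | c' <;> rfl
  rw [e3, gen_single]
  exact hl

/-- leaf symmetry of indecomposability -/
theorem indec_leaf {M : Col r K α} (hN : Nice M) (V : ℕ → Ultrafilter (Fin n → α))
    (b : ℕ → Fin r → α) (hg : ∀ k, GoodOn (V k) Set.univ) (π : Equiv.Perm ℕ)
    (S : Finset (SI r n)) (hS : ∀ c ∈ S, c ∈ (IB b : Set (SI r n)))
    (h : Indec M (starU V b) S) :
    Indec M (starU V b) (S.map (leafEquiv π).toEmbedding) := by
  classical
  have hle : ∀ c : SI r n, leafEquiv π c = lfR π c := by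
    rintro (a | ⟨j, c⟩) <;> rfl
  have hSI' : ∀ c ∈ S.map (leafEquiv π).toEmbedding, c ∈ (IB b : Set (SI r n)) := by
    intro c hc a hca
    obtain ⟨c', hc', rfl⟩ := Finset.mem_map.1 hc
    rcases c' with a' | ⟨j, d⟩
    · exact hS _ hc' a hca
    · have h1 : (leafEquiv π).toEmbedding (Sum.inr (j, d) : SI r n) = Sum.inr (π j, d) := rfl
      rw [h1] at hca
      simp at hca
  have hg1 : GoodOn (starU V b) ((S.map (leafEquiv π).toEmbedding : Finset (SI r n)) :
      Set (SI r n)) := (star_good V b hg).mono (fun c hc => hSI' c hc)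
  have hg0 : GoodOn (starU V b) (S : Set (SI r n)) :=
    (star_good V b hg).mono (fun c hc => hS c hc)
  have h1 := indec_map hN hg1 (leafEquiv π) S (leafEquiv π).injective.injOn (by
    intro c
    rw [Finset.mem_map]
    rfl)
  refine h1.1 (indec_congr hN hg0 ?_ ?_ h)
  · refine goodOn_map hg1 (leafEquiv π) (S : Set (SI r n)) (leafEquiv π).injective.injOn ?_
    intro c hc
    exact Finset.mem_map.2 ⟨c, hc, rfl⟩
  · intro t ht
    rw [lt_map hN.1]
    have e : (Sum.map id (leafEquiv π) ∘ t : Fin r → α ⊕ SI r n) =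
        Sum.map id (lfR π) ∘ t := by
      funext i
      simp only [Function.comp]
      rcases t i with a | c
      · rfl
      · show Sum.inr (leafEquiv π c) = Sum.inr (lfR π c)
        rw [hle]
    rw [e, lt_star_ren hN V b hg π t (fun i j c i' j' c' _ _ hjj => π.injective hjj)]

section comp

/-- admissible coordinates with leaf numbers below `l` -/
def admL (b : ℕ → Fin r → α) (l : ℕ) : Set (SI r n) :=
  {c | c ∈ (IB b : Set (SI r n)) ∧ ∀ j c', c = Sum.inr (j, c') → j < l}

/-- adjacency through indecomposable sets with leaf numbers below `l` -/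
def adjL (M : Col r K α) (V : ℕ → Ultrafilter (Fin n → α)) (b : ℕ → Fin r → α) (l : ℕ)
    (x y : SI r n) : Prop :=
  ∃ T : Finset (SI r n), (∀ c ∈ T, c ∈ (admL b l : Set (SI r n))) ∧ T.card ≤ r ∧ x ∈ T ∧ y ∈ T ∧
    Indec M (starU V b) T

/-- the connected component of `x₀` -/
def compL (M : Col r K α) (V : ℕ → Ultrafilter (Fin n → α)) (b : ℕ → Fin r → α) (x₀ : SI r n)
    (l : ℕ) : Set (SI r n) :=
  {y | Relation.ReflTransGen (adjL M V b l) x₀ y}

theorem compL_subset (M : Col r K α) (V : ℕ → Ultrafilter (Fin n → α)) (b : ℕ → Fin r → α)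
    (x₀ : SI r n) (l : ℕ) (hx : x₀ ∈ (admL b l : Set (SI r n))) :
    compL M V b x₀ l ⊆ (admL b l : Set (SI r n)) := by
  intro y hy
  change Relation.ReflTransGen (adjL M V b l) x₀ y at hy
  rcases Relation.ReflTransGen.cases_tail hy with h | ⟨z, _, T, hT, _, _, hyT, _⟩
  · rw [h]; exact hx
  · exact hT y hyT

theorem admL_subset_finset (b : ℕ → Fin r → α) (l : ℕ) :
    (admL b l : Set (SI r n)) ⊆ (((Finset.univ : Finset (Fin r)).disjSum
      ((Finset.range l) ×ˢ (Finset.univ : Finset (Fin n)))) : Set (SI r n)) := by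
  rintro (a | ⟨j, c'⟩) hc
  · simp
  · have := hc.2 j c' rfl
    simp [this]

theorem admL_finite (b : ℕ → Fin r → α) (l : ℕ) : (admL b l : Set (SI r n)).Finite :=
  (Finset.finite_toSet _).subset (admL_subset_finset b l)

theorem admL_ncard (b : ℕ → Fin r → α) (l : ℕ) : (admL b l : Set (SI r n)).ncard ≤ r + l * n := by
  have h := Set.ncard_le_ncard (admL_subset_finset (n := n) b l) (Finset.finite_toSet _)
  rw [Set.ncard_coe_finset, Finset.card_disjSum, Finset.card_product] at h
  simpa using h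

end comp

theorem famT_mono {L ι : Type} [LinearOrder L] (M : Col r K α) (W : L → Ultrafilter (ι → α))
    {I I' : L → Set ι} (h : ∀ p, I p ⊆ I' p) : FamT M W I ⊆ FamT M W I' := by
  rintro g ⟨t, ht, rfl⟩
  exact ⟨t, fun i p c hi => h p (ht i p c hi), rfl⟩

/-- Step B: a separation failure makes a nice structure wild -/
theorem stepB' [Countable α] (M : Col r K α) (hN : Nice M)
    (h : ∀ A₀ : Finset α, ¬ SepBy M (A₀ : Set α)) : Wild M Set.univ := by
  classical
  obtain ⟨n, V, σ, b, ε, γ, hg, hne, h1, h2⟩ := sep_fail M hN.1 h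
  -- a crossing set
  let S₀ : Finset (SI r n) := Finset.univ.biUnion (fun i => Sum.elim (fun _ => ∅)
    (fun c => {c}) (cr0 b σ i))
  have memS₀ : ∀ c, c ∈ S₀ ↔ ∃ i, cr0 b σ i = Sum.inr c := by
    intro c
    simp only [S₀, Finset.mem_biUnion, Finset.mem_univ, true_and]
    refine exists_congr (fun i => ?_)
    rcases cr0 b σ i with a | c'
    · simp
    · simp [eq_comm]
  have hS₀I : ∀ c ∈ S₀, c ∈ (IB b : Set (SI r n)) := by
    intro c hc a hca
    obtain ⟨i, hi⟩ := (memS₀ c).1 hc
    unfold cr0 at hi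
    rcases cenT_spec b σ i with ⟨c', h1, h2⟩ | ⟨y, h1, h2, h3⟩ | ⟨h1, h2, h3⟩
    · rw [h2] at hi
      have := Sum.inr.inj hi
      rw [hca] at this
      simp at this
    · rw [h3] at hi
      simp at hi
    · rw [h3] at hi
      have h4 : Sum.inl (repS b i) = c := Sum.inr.inj hi
      rw [hca] at h4
      rw [← Sum.inl.inj h4]
      exact h2
  have hS₀0 : ∀ c ∈ S₀, ∀ j c', c = Sum.inr (j, c') → j = 0 := by
    intro c hc j c' hcj
    obtain ⟨i, hi⟩ := (memS₀ c).1 hc
    unfold cr0 at hi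
    rcases hcen : cenT b σ i with y | a' | d
    · rw [hcen] at hi
      simp at hi
    · rw [hcen] at hi
      have := Sum.inr.inj hi
      rw [hcj] at this
      simp at this
    · rw [hcen] at hi
      have h3 : Sum.inr (0, d) = c := Sum.inr.inj hi
      rw [hcj] at h3
      exact ((Prod.mk.inj (Sum.inr.inj h3)).1).symm
  have hgS₀ : GoodOn (starU V b) (S₀ : Set (SI r n)) :=
    (star_good V b hg).mono (fun c hc => hS₀I c hc)
  have hcross : ¬ Split M (starU V b) S₀ (Set.range Sum.inl) := by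
    intro hsp
    have h3 := hsp (cr0 b σ) (fun i c hi => (memS₀ c).2 ⟨i, hi⟩)
    rw [cr0_lt hN V b σ ε h1, cr0_lt2 hN V b σ γ h2] at h3
    exact hne h3
  obtain ⟨S₁, hS₁, hcard₁, hInd, ⟨c₁, hc₁, ⟨b₀, rfl⟩⟩, ⟨c₂, hc₂, hc₂n⟩⟩ :=
    mcu hN hgS₀ _ hcross
  obtain ⟨c₀, rfl⟩ : ∃ c₀ : Fin n, c₂ = Sum.inr (0, c₀) := by
    rcases c₂ with a | ⟨j, c'⟩
    · exact absurd ⟨a, rfl⟩ hc₂n
    · have := hS₀0 _ (hS₁ hc₂) j c' rfl
      exact ⟨c', by rw [this]⟩
  have hα : Nonempty α := ⟨b 0 b₀⟩
  have hI₁ : ∀ c ∈ S₁, c ∈ (IB b : Set (SI r n)) := fun c hc => hS₀I c (hS₁ hc)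
  have hb₀ : ∀ l, (Sum.inl b₀ : SI r n) ∈ (admL b l : Set (SI r n)) := fun l =>
    ⟨hI₁ _ hc₁, fun j c' h => by simp at h⟩
  -- the leaves are in the component
  have hleaf : ∀ l j, j < l → (Sum.inr (j, c₀) : SI r n) ∈ compL M V b (Sum.inl b₀) l := by
    intro l j hj
    refine Relation.ReflTransGen.single
      ⟨S₁.map (leafEquiv (Equiv.swap 0 j)).toEmbedding, ?_, ?_, ?_, ?_, ?_⟩
    · intro c hc
      rw [Finset.mem_map] at hc
      obtain ⟨d, hd, rfl⟩ := hc
      rcases d with a | ⟨i, c'⟩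
      · exact ⟨hI₁ _ hd, fun j c' h => by simp [leafEquiv] at h⟩
      · have hi0 : i = 0 := hS₀0 _ (hS₁ hd) i c' rfl
        subst hi0
        have he : (leafEquiv (r := r) (n := n) (Equiv.swap 0 j)).toEmbedding (Sum.inr (0, c')) =
            Sum.inr (j, c') := by
          simp [leafEquiv]
        rw [he]
        refine ⟨?_, ?_⟩
        · intro a ha
          simp at ha
        · intro j' c'' h
          simp only [Sum.inr.injEq, Prod.mk.injEq] at h
          omega
    · rw [Finset.card_map]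
      exact hcard₁
    · rw [Finset.mem_map]
      exact ⟨_, hc₁, by simp [leafEquiv]⟩
    · rw [Finset.mem_map]
      exact ⟨_, hc₂, by simp [leafEquiv]⟩
    · exact indec_leaf hN V b hg _ S₁ hI₁ hInd
  have hself : ∀ l, (Sum.inl b₀ : SI r n) ∈ compL M V b (Sum.inl b₀) l := fun l =>
    Relation.ReflTransGen.refl
  have hfin : ∀ l, (compL M V b (Sum.inl b₀) l).Finite := fun l =>
    (admL_finite b l).subset (compL_subset M V b _ l (hb₀ l))
  have hlow : ∀ l, l + 1 ≤ (hfin l).toFinset.card := by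
    intro l
    have hsub : ((insert (Sum.inl b₀) ((Finset.range l).image
        (fun j => (Sum.inr (j, c₀) : SI r n)))) : Finset _) ⊆ (hfin l).toFinset := by
      intro c hc
      rw [Finset.mem_insert, Finset.mem_image] at hc
      rw [Set.Finite.mem_toFinset]
      rcases hc with rfl | ⟨j, hj, rfl⟩
      · exact hself l
      · exact hleaf l j (Finset.mem_range.1 hj)
    have h1 := Finset.card_le_card hsub
    rw [Finset.card_insert_of_notMem (by simp), Finset.card_image_of_injective _ (by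
      intro j j' h
      simpa using h), Finset.card_range] at h1
    exact h1
  have hupp : ∀ l, (hfin l).toFinset.card ≤ r + l * n := by
    intro l
    rw [← Set.ncard_eq_toFinset_card _ (hfin l)]
    exact (Set.ncard_le_ncard (compL_subset M V b _ l (hb₀ l)) (admL_finite b l)).trans
      (admL_ncard b l)
  let lq : ℕ → ℕ := fun q => Nat.rec 0 (fun _ l => r + l * n + 1) q
  have hlq : ∀ q, lq (q + 1) = r + lq q * n + 1 := fun q => rfl
  have hsub : ∀ q, ((hfin (lq q)).toFinset : Set (SI r n)) ⊆ IB b := by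
    intro q c hc
    rw [Set.Finite.coe_toFinset] at hc
    exact (compL_subset M V b _ _ (hb₀ _) hc).1
  refine wildSys hN (fun _ => starU V b) (fun q => (hfin (lq q)).toFinset)
    (fun q => (star_good V b hg).mono (hsub q)) ?_ ?_ ?_ ?_
  · exact (famT_star hN V b hg).subset (famT_mono M _ (fun p => hsub _))
  · intro q
    exact ⟨Sum.inl b₀, by rw [Set.Finite.mem_toFinset]; exact hself _⟩
  · refine strictMono_nat_of_lt_succ fun q => ?_
    have h1 := hlow (lq (q + 1))
    have h2 := hupp (lq q)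
    rw [hlq q] at h1
    show (hfin (lq q)).toFinset.card < (hfin (lq (q + 1))).toFinset.card
    simp only [hlq q]
    omega
  · intro q
    have hsymm : ∀ x y : SI r n, (∃ S : Finset (SI r n), S ⊆ (hfin (lq q)).toFinset ∧
        S.card ≤ r ∧ x ∈ S ∧ y ∈ S ∧ Indec M (starU V b) S) →
        (∃ S : Finset (SI r n), S ⊆ (hfin (lq q)).toFinset ∧
        S.card ≤ r ∧ y ∈ S ∧ x ∈ S ∧ Indec M (starU V b) S) := by
      rintro x y ⟨T, h1, h2, h3, h4, h5⟩
      exact ⟨T, h1, h2, h4, h3, h5⟩
    have hreach : ∀ y, Relation.ReflTransGen (adjL M V b (lq q)) (Sum.inl b₀) y →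
        Relation.ReflTransGen (fun x y => ∃ S : Finset (SI r n), S ⊆ (hfin (lq q)).toFinset ∧
          S.card ≤ r ∧ x ∈ S ∧ y ∈ S ∧ Indec M (starU V b) S) (Sum.inl b₀) y ∧
        Relation.ReflTransGen (fun x y => ∃ S : Finset (SI r n), S ⊆ (hfin (lq q)).toFinset ∧
          S.card ≤ r ∧ x ∈ S ∧ y ∈ S ∧ Indec M (starU V b) S) y (Sum.inl b₀) := by
      intro y hy
      induction hy with
      | refl => exact ⟨Relation.ReflTransGen.refl, Relation.ReflTransGen.refl⟩
      | @tail z y hz hzy ih =>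
        have key : ∃ S : Finset (SI r n), S ⊆ (hfin (lq q)).toFinset ∧
            S.card ≤ r ∧ z ∈ S ∧ y ∈ S ∧ Indec M (starU V b) S := ?_
        · exact ⟨ih.1.tail key, Relation.ReflTransGen.head (hsymm _ _ key) ih.2⟩
        obtain ⟨T, h1, h2, h3, h4, h5⟩ := hzy
        refine ⟨T, ?_, h2, h3, h4, h5⟩
        intro c hc
        rw [Set.Finite.mem_toFinset]
        exact hz.tail ⟨T, h1, h2, h3, hc, h5⟩
    intro x hx y hy
    rw [Set.Finite.mem_toFinset] at hx hy
    exact (hreach x hx).2.trans (hreach y hy).1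

end Pool.H22.VN
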